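import Mathlib.Algebra.CharP.Lemmas
import Mathlib.Algebra.MonoidAlgebra.Basic
import Mathlib.Data.ZMod.Basic
import Mathlib.GroupTheory.Perm.Basic
import Mathlib.Tactic

/-!
# Permutation groups with a regular cyclic subgroup: invariant functions (MP_11236d_an, stage 5;
helper21, helper11)

A permutation group `G` on `ZMod n` which contains the translations.
-/

set_option linter.unusedSectionVars false

namespace WildJ

open Equiv

variable {n : ℕ} [NeZero n]

/-- `f (y - x)` is invariant under `G`. -/
def GF (G : Subgroup (Perm (ZMod n))) {R : Type} (f : ZMod n → R) : Prop :=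
  ∀ g ∈ G, ∀ x y, f (g y - g x) = f (y - x)

/-- `T` is invariant in the same sense. -/
def GS (G : Subgroup (Perm (ZMod n))) (T : Finset (ZMod n)) : Prop :=
  ∀ g ∈ G, ∀ x y, g y - g x ∈ T ↔ y - x ∈ T

/-- Every invariant equivalence relation is trivial. -/
def Prim {Ω : Type} (G : Subgroup (Perm Ω)) : Prop :=
  ∀ R : Ω → Ω → Prop, Equivalence R → (∀ g ∈ G, ∀ x y, R x y → R (g x) (g y)) →
    (∀ x y, R x y → x = y) ∨ ∀ x y, R x y

theorem GS.gf {G : Subgroup (Perm (ZMod n))} {T : Finset (ZMod n)} (h : GS G T) (R : Type)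
    [Zero R] [One R] : GF G (fun z => if z ∈ T then (1 : R) else 0) := by
  intro g hg x y
  show (if g y - g x ∈ T then (1 : R) else 0) = if y - x ∈ T then (1 : R) else 0
  simp only [h g hg x y]

/-- Level sets of invariant functions are invariant. -/
theorem GF.gs {G : Subgroup (Perm (ZMod n))} {R : Type} {f : ZMod n → R} (h : GF G f)
    (p : R → Prop) [DecidablePred p] : GS G (Finset.univ.filter fun z => p (f z)) := by
  intro g hg x y
  rw [Finset.mem_filter, Finset.mem_filter, h g hg x y]
  simp only [Finset.mem_univ, true_and]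

/-- The difference `y - x = 0` is preserved by a permutation; so invariant sets can be changed at
`0`.  Proof: `g y - g x = 0 ↔ g y = g x ↔ y = x`. -/
theorem GS.erase_zero {G : Subgroup (Perm (ZMod n))} {T : Finset (ZMod n)} (h : GS G T) :
    GS G (T.erase 0) := by
  intro g hg x y
  rw [Finset.mem_erase, Finset.mem_erase, h g hg x y]
  have h1 : g y - g x ≠ 0 ↔ y - x ≠ 0 := by
    rw [sub_ne_zero, sub_ne_zero, g.injective.ne_iff]
  rw [h1]

theorem GS.compl {G : Subgroup (Perm (ZMod n))} {T : Finset (ZMod n)} (h : GS G T) :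
    GS G Tᶜ := by
  intro g hg x y
  rw [Finset.mem_compl, Finset.mem_compl, h g hg x y]

theorem GS.inter {G : Subgroup (Perm (ZMod n))} {T T' : Finset (ZMod n)} (h : GS G T)
    (h' : GS G T') : GS G (T ∩ T') := by
  intro g hg x y
  rw [Finset.mem_inter, Finset.mem_inter, h g hg x y, h' g hg x y]

theorem SchurA_card (T : Finset (ZMod n)) (x y : ZMod n) :
    (T.filter fun t => y - x + t ∈ T).card =
      (Finset.univ.filter fun z => z - y ∈ T ∧ z - x ∈ T).card := by
  refine Finset.card_bij (fun t _ => t + y) ?_ ?_ ?_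
  · intro t ht
    rw [Finset.mem_filter] at ht ⊢
    refine ⟨Finset.mem_univ _, ?_, ?_⟩
    · rw [add_sub_cancel_right]
      exact ht.1
    · have h1 : t + y - x = y - x + t := by ring
      rw [h1]
      exact ht.2
  · intro t _ t' _ htt
    exact add_right_cancel htt
  · intro z hz
    rw [Finset.mem_filter] at hz
    refine ⟨z - y, ?_, sub_add_cancel z y⟩
    rw [Finset.mem_filter]
    refine ⟨hz.2.1, ?_⟩
    have h1 : y - x + (z - y) = z - x := by ring
    rw [h1]
    exact hz.2.2

/-- The number of `t ∈ T` with `h + t ∈ T` is an invariant function of `h`.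

Proof.  For `h = y - x` it is the number of the `z` with `z - y ∈ T` and `z - x ∈ T` (`t = z - y`,
`h + t = z - x`); substitute `z ↦ g z` (a bijection). -/
theorem GS.corr {G : Subgroup (Perm (ZMod n))} {T : Finset (ZMod n)} (h : GS G T) :
    GF G (fun d => (T.filter fun t => d + t ∈ T).card) := by
  intro g hg x y
  show (T.filter fun t => g y - g x + t ∈ T).card = (T.filter fun t => y - x + t ∈ T).card
  rw [SchurA_card, SchurA_card]
  symm
  refine Finset.card_bij (fun z _ => g z) ?_ ?_ ?_
  · intro z hz
    rw [Finset.mem_filter] at hz ⊢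
    exact ⟨Finset.mem_univ _, (h g hg y z).2 hz.2.1, (h g hg x z).2 hz.2.2⟩
  · intro z _ z' _ hzz
    exact g.injective hzz
  · intro z hz
    rw [Finset.mem_filter] at hz
    refine ⟨g.symm z, ?_, g.apply_symm_apply z⟩
    rw [Finset.mem_filter]
    refine ⟨Finset.mem_univ _, ?_, ?_⟩
    · rw [← h g hg y (g.symm z), g.apply_symm_apply]
      exact hz.2.1
    · rw [← h g hg x (g.symm z), g.apply_symm_apply]
      exact hz.2.2

/-- Convolution.

Proof.  `∑ u, f u * f' (g y - g x - u)`; put `u = g z - g x` (a bijection of the `z`):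
`∑ z, f (g z - g x) * f' (g y - g z) = ∑ z, f (z - x) * f' (y - z)`, and this is the sum for `y - x`
(`u = z - x`). -/
theorem GF.conv {G : Subgroup (Perm (ZMod n))} {R : Type} [CommSemiring R] {f f' : ZMod n → R}
    (h : GF G f) (h' : GF G f') : GF G (fun d => ∑ u, f u * f' (d - u)) := by
  intro g hg x y
  show ∑ u, f u * f' (g y - g x - u) = ∑ u, f u * f' (y - x - u)
  have h1 : ∑ u, f u * f' (g y - g x - u) = ∑ z, f (g z - g x) * f' (g y - g z) := by
    symm
    refine Fintype.sum_equiv (g.trans (Equiv.subRight (g x))) _ _ fun z => ?_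
    show f (g z - g x) * f' (g y - g z) = f (g z - g x) * f' (g y - g x - (g z - g x))
    congr 2
    ring
  have h2 : ∑ u, f u * f' (y - x - u) = ∑ z, f (z - x) * f' (y - z) := by
    symm
    refine Fintype.sum_equiv (Equiv.subRight x) _ _ fun z => ?_
    show f (z - x) * f' (y - z) = f (z - x) * f' (y - x - (z - x))
    congr 2
    ring
  rw [h1, h2]
  refine Finset.sum_congr rfl fun z _ => ?_
  rw [h g hg x z, h' g hg z y]

theorem SchurA_mul {R : Type} [CommSemiring R] (a b : AddMonoidAlgebra R (ZMod n)) (d : ZMod n) :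
    (a * b).coeff d = ∑ u, a.coeff u * b.coeff (d - u) := by
  classical
  rw [AddMonoidAlgebra.coeff_mul_antidiag a b d (Finset.univ.image fun u => (u, d - u)) ?_]
  · rw [Finset.sum_image]
    intro u _ v _ huv
    exact (Prod.mk.inj huv).1
  · rintro ⟨u, v⟩
    rw [Finset.mem_image]
    constructor
    · rintro ⟨w, -, hw⟩
      obtain ⟨rfl, rfl⟩ := Prod.mk.inj hw
      show w + (d - w) = d
      ring
    · intro huv
      have huv' : u + v = d := huv
      refine ⟨u, Finset.mem_univ _, ?_⟩
      rw [← huv', add_sub_cancel_left]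

theorem SchurA_pow {G : Subgroup (Perm (ZMod n))} {R : Type} [CommSemiring R]
    {a : AddMonoidAlgebra R (ZMod n)} (h : GF G a.coeff) (k : ℕ) : GF G (a ^ k).coeff := by
  induction k with
  | zero =>
    intro g hg x y
    rw [pow_zero, AddMonoidAlgebra.one_def]
    have h1 : ∀ d : ZMod n, (AddMonoidAlgebra.single (0 : ZMod n) (1 : R)).coeff d =
        if d = 0 then 1 else 0 := by
      intro d
      classical
      rw [AddMonoidAlgebra.coeff_single, Finsupp.single_apply]
      by_cases hd : d = 0
      · rw [if_pos hd, if_pos hd.symm]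
      · rw [if_neg hd, if_neg (Ne.symm hd)]
    rw [h1, h1]
    have h2 : g y - g x = 0 ↔ y - x = 0 := by
      rw [sub_eq_zero, sub_eq_zero, g.injective.eq_iff]
    simp only [h2]
  | succ k ih =>
    have h1 := GF.conv ih h
    intro g hg x y
    rw [pow_succ, SchurA_mul, SchurA_mul]
    exact h1 g hg x y

/-- **Multiplication by a prime.**

Proof.  In `AddMonoidAlgebra (ZMod p) (ZMod n)`, a commutative ring of characteristic `p`, let
`τ = ∑ t ∈ T, single t 1`.  `τ ^ p = ∑ t ∈ T, single (p • t) 1` (`sum_pow_char`, `AddMonoidAlgebra.single_pow`;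
or avoid the algebra: prove by hand).  The coefficients of `τ ^ k` are invariant functions
(`GF.conv`, induction on `k`, `AddMonoidAlgebra.mul_apply`-type formula; the coefficient function of `1`
is the indicator of `0`).  The coefficient of `τ ^ p` at `d` is the number of `t ∈ T` with `p t = d`
modulo `p`.  `GF.gs`. -/
theorem GS.frob {G : Subgroup (Perm (ZMod n))} {T : Finset (ZMod n)} (h : GS G T) {p : ℕ}
    (hp : p.Prime) :
    GS G (Finset.univ.filter fun d => ¬ p ∣ (T.filter fun t => (p : ZMod n) * t = d).card) := by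
  classical
  have hfact : Fact p.Prime := ⟨hp⟩
  set a : AddMonoidAlgebra (ZMod p) (ZMod n) :=
    ∑ t ∈ T, AddMonoidAlgebra.single t (1 : ZMod p) with ha
  have hac : a.coeff = fun z => if z ∈ T then (1 : ZMod p) else 0 := by
    funext z
    rw [ha, AddMonoidAlgebra.coeff_sum, Finsupp.finsetSum_apply]
    simp only [AddMonoidAlgebra.coeff_single, Finsupp.single_apply]
    rw [Finset.sum_ite_eq' T z (fun _ => (1 : ZMod p))]
  have h1 : GF G (a ^ p).coeff := by
    refine SchurA_pow ?_ p
    rw [hac]
    exact h.gf (ZMod p)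
  have hch : CharP (AddMonoidAlgebra (ZMod p) (ZMod n)) p :=
    charP_of_injective_ringHom (f := (AddMonoidAlgebra.singleZeroRingHom :
      ZMod p →+* AddMonoidAlgebra (ZMod p) (ZMod n))) (by
        intro x y hxy
        have h2 := congrArg (fun b : AddMonoidAlgebra (ZMod p) (ZMod n) => b.coeff 0) hxy
        simpa using h2) p
  have h2 : a ^ p = ∑ t ∈ T, AddMonoidAlgebra.single (p • t) (1 : ZMod p) := by
    rw [ha, sum_pow_char]
    refine Finset.sum_congr rfl fun t _ => ?_
    rw [AddMonoidAlgebra.single_pow, one_pow]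
  have h3 : ∀ d, (a ^ p).coeff d =
      (((T.filter fun t => (p : ZMod n) * t = d).card : ℕ) : ZMod p) := by
    intro d
    rw [h2, AddMonoidAlgebra.coeff_sum, Finsupp.finsetSum_apply]
    simp only [AddMonoidAlgebra.coeff_single, Finsupp.single_apply, nsmul_eq_mul]
    rw [Finset.card_filter]
    push_cast
    rfl
  have h4 := h1.gs (fun r => r ≠ 0)
  have h5 : (Finset.univ.filter fun d => ¬ p ∣ (T.filter fun t => (p : ZMod n) * t = d).card) =
      Finset.univ.filter fun z => (a ^ p).coeff z ≠ 0 := by
    refine Finset.filter_congr fun d _ => ?_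
    rw [h3 d, Ne, ZMod.natCast_eq_zero_iff]
  rw [h5]
  exact h4

/-- **Primitivity, generators.**  An invariant set contained in a proper subgroup is contained in
`{0}`.

Proof.  `R = Relation.EqvGen (fun x y => y - x ∈ T)` is invariant under `G` and is an equivalence relation;
it is contained in the relation `y - x ∈ K`.  If `R` is total, then `K = ⊤`.  So `R` is trivial by `Prim`:
for `t ∈ T`, `R 0 t`, so `t = 0`. -/
theorem GS.gen {G : Subgroup (Perm (ZMod n))} (hG : Prim G) {T : Finset (ZMod n)} (h : GS G T)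
    {K : AddSubgroup (ZMod n)} (hK : K ≠ ⊤) (hT : ∀ t ∈ T, t ∈ K) : ∀ t ∈ T, t = 0 := by
  have hinv : ∀ g ∈ G, ∀ x y, Relation.EqvGen (fun x y => y - x ∈ T) x y →
      Relation.EqvGen (fun x y => y - x ∈ T) (g x) (g y) := by
    intro g hg x y hxy
    induction hxy with
    | rel x y hxy => exact Relation.EqvGen.rel _ _ ((h g hg x y).2 hxy)
    | refl x => exact Relation.EqvGen.refl _
    | symm x y _ ih => exact Relation.EqvGen.symm _ _ ih
    | trans x y z _ _ ih1 ih2 => exact Relation.EqvGen.trans _ _ _ ih1 ih2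
  have hKR : ∀ x y, Relation.EqvGen (fun x y => y - x ∈ T) x y → y - x ∈ K := by
    intro x y hxy
    induction hxy with
    | rel x y hxy => exact hT _ hxy
    | refl x =>
      rw [sub_self]
      exact K.zero_mem
    | symm x y _ ih =>
      rw [← neg_sub]
      exact K.neg_mem ih
    | trans x y z _ _ ih1 ih2 =>
      have h1 : z - x = (z - y) + (y - x) := by ring
      rw [h1]
      exact K.add_mem ih2 ih1
  rcases hG _ (Relation.EqvGen.is_equivalence _) hinv with h1 | h1
  · intro t ht
    have h2 : Relation.EqvGen (fun x y => y - x ∈ T) 0 t :=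
      Relation.EqvGen.rel _ _ (by rwa [sub_zero])
    exact (h1 _ _ h2).symm
  · exfalso
    apply hK
    rw [eq_top_iff]
    intro z _
    have h2 := hKR 0 z (h1 0 z)
    rwa [sub_zero] at h2

/-- **Primitivity, periods.**  A nonempty proper invariant set has no periods.

Proof.  `R x y` iff for all `z`: `z - x ∈ T ↔ z - y ∈ T`.  It is an invariant equivalence relation
(`g` is a bijection).  It is not total: otherwise (`x = z - t`, `t ∈ T`) all elements lie in `T`.  So it
is trivial; `k` is a period, so `R 0 k` (`z - k ∈ T` iff `z ∈ T`). -/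
theorem GS.period {G : Subgroup (Perm (ZMod n))} (hG : Prim G) {T : Finset (ZMod n)} (h : GS G T)
    (hne : T.Nonempty) (hne' : T ≠ Finset.univ) {k : ZMod n} (hk : ∀ t ∈ T, t + k ∈ T) :
    k = 0 := by
  -- adding `k` is a permutation of `T`
  have hk' : ∀ z, z + k ∈ T ↔ z ∈ T := by
    have hsub : T.image (fun t => t + k) ⊆ T := by
      intro z hz
      obtain ⟨t, ht, rfl⟩ := Finset.mem_image.1 hz
      exact hk t ht
    have hcard : (T.image fun t => t + k).card = T.card :=
      Finset.card_image_of_injective _ (add_left_injective k)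
    have heq : T.image (fun t => t + k) = T := Finset.eq_of_subset_of_card_le hsub hcard.ge
    intro z
    refine ⟨fun hz => ?_, hk z⟩
    rw [← heq] at hz
    obtain ⟨t, ht, htz⟩ := Finset.mem_image.1 hz
    rwa [← add_right_cancel htz]
  have hinv : ∀ g ∈ G, ∀ x y, (∀ z, z - x ∈ T ↔ z - y ∈ T) →
      ∀ z, z - g x ∈ T ↔ z - g y ∈ T := by
    intro g hg x y hxy z
    have h1 := h g hg x (g.symm z)
    have h2 := h g hg y (g.symm z)
    rw [g.apply_symm_apply] at h1 h2
    rw [h1, h2]
    exact hxy _
  rcases hG (fun x y => ∀ z, z - x ∈ T ↔ z - y ∈ T)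
    ⟨fun x z => Iff.rfl, fun hxy z => (hxy z).symm, fun h1 h2 z => (h1 z).trans (h2 z)⟩
    hinv with h1 | h1
  · refine (h1 0 k fun z => ?_).symm
    rw [sub_zero, ← hk' (z - k), sub_add_cancel]
  · exfalso
    apply hne'
    rw [Finset.eq_univ_iff_forall]
    intro z
    obtain ⟨t, ht⟩ := hne
    have h2 := (h1 (z - t) 0 z).1 (by rwa [sub_sub_cancel])
    rwa [sub_zero] at h2

end WildJ
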