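import Pool.Agent.helper21.SC.CycG

/-! The class relation generated by the sets of the solutions near `q`. -/

namespace WildJ

open Polynomial WildRat WildS WildV WildH WildN

variable {L : Type} [Field L] [Algebra ℂ L]

/-- One step: `z`, `w` are solutions near `q` for some valuation ring over `c`. -/
def Stp (A : RF) (c q : ℂ) (t z w : L) : Prop :=
  Sol A t z ∧ Sol A t w ∧ ∃ O : ValuationSubring L, (∀ x : ℂ, algebraMap ℂ L x ∈ O) ∧
    Near O t c ∧ Near O z q ∧ Near O w q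

theorem Stp.symm {A : RF} {c q : ℂ} {t z w : L} (h : Stp A c q t z w) : Stp A c q t w z := by
  obtain ⟨h1, h2, O, h3, h4, h5, h6⟩ := h
  exact ⟨h2, h1, O, h3, h4, h6, h5⟩

/-- The image of a valuation ring under an automorphism. -/
theorem Near_comap (τ : L ≃ₐ[ℂ] L) (O : ValuationSubring L) (z : L) (a : ℂ) :
    Near (O.comap (τ.symm : L →+* L)) (τ z) a ↔ Near O z a := by
  unfold Near
  rw [Conj_comap]
  have h : (τ.symm : L →+* L) (τ z - algebraMap ℂ L a) = z - algebraMap ℂ L a := by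
    rw [map_sub]
    have h1 : (τ.symm : L →+* L) (τ z) = z := τ.symm_apply_apply z
    have h2 : (τ.symm : L →+* L) (algebraMap ℂ L a) = algebraMap ℂ L a := τ.symm.commutes a
    rw [h1, h2]
  rw [h]

theorem Stp.map {A : RF} {c q : ℂ} {t z w : L} (h : Stp A c q t z w) (τ : L ≃ₐ[ℂ] L)
    (ht : τ t = t) : Stp A c q t (τ z) (τ w) := by
  obtain ⟨h1, h2, O, h3, h4, h5, h6⟩ := h
  refine ⟨h1.map τ ht, h2.map τ ht, O.comap (τ.symm : L →+* L), fun x => ?_, ?_,
    (Near_comap τ O z q).2 h5, (Near_comap τ O w q).2 h6⟩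
  · rw [ValuationSubring.mem_comap]
    have h7 : (τ.symm : L →+* L) (algebraMap ℂ L x) = algebraMap ℂ L x := τ.symm.commutes x
    rw [h7]
    exact h3 x
  · have h7 := (Near_comap τ O t c).2 h4
    rw [ht] at h7
    exact h7

/-- The class relation. -/
def Rg (A : RF) (c q : ℂ) (t : L) : L → L → Prop := Relation.ReflTransGen (Stp A c q t)

theorem Rg.refl {A : RF} {c q : ℂ} {t : L} (z : L) : Rg A c q t z z := Relation.ReflTransGen.refl

theorem Rg.symm {A : RF} {c q : ℂ} {t z w : L} (h : Rg A c q t z w) : Rg A c q t w z := by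
  induction h with
  | refl => exact Rg.refl _
  | tail _ h2 ih => exact Relation.ReflTransGen.head h2.symm ih

theorem Rg.trans {A : RF} {c q : ℂ} {t z w v : L} (h : Rg A c q t z w) (h' : Rg A c q t w v) :
    Rg A c q t z v := Relation.ReflTransGen.trans h h'

theorem Rg.map {A : RF} {c q : ℂ} {t z w : L} (h : Rg A c q t z w) (τ : L ≃ₐ[ℂ] L)
    (ht : τ t = t) : Rg A c q t (τ z) (τ w) := by
  induction h with
  | refl => exact Rg.refl _
  | tail _ h2 ih => exact Relation.ReflTransGen.tail ih (h2.map τ ht)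

theorem Rg.near {A : RF} {c q : ℂ} {t z w : L} (O : ValuationSubring L)
    (hO : ∀ x : ℂ, algebraMap ℂ L x ∈ O) (ht : Near O t c) (hz : Sol A t z) (hw : Sol A t w)
    (hzq : Near O z q) (hwq : Near O w q) : Rg A c q t z w :=
  Relation.ReflTransGen.single ⟨hz, hw, O, hO, ht, hzq, hwq⟩

theorem ClsG_fix (σ : L ≃ₐ[ℂ] L) (k : ℕ) {z : L} (h : σ z = z) : (σ ^ k) z = z := by
  induction k with
  | zero => rfl
  | succ k ih => rw [pow_succ', AlgEquiv.mul_apply, ih, h]

/-- Local transitivity. -/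
theorem Rg.loc {A : RF} {c q : ℂ} {l : ℕ} (hA : NormC A c q l) {δ : E →ₐ[ℂ] L} (hL : Amb δ)
    {z w : L} (hz : Sol A (δ RatFunc.X) z) (h : Rg A c q (δ RatFunc.X) z w) :
    ∃ τ : L ≃ₐ[ℂ] L, τ (δ RatFunc.X) = δ RatFunc.X ∧ τ z = w ∧
      ∀ v, Sol A (δ RatFunc.X) v → ¬ Rg A c q (δ RatFunc.X) z v → τ v = v := by
  induction h with
  | refl => exact ⟨1, rfl, rfl, fun _ _ _ => rfl⟩
  | tail h1 h2 ih =>
    rename_i b d
    obtain ⟨τ, h3, h4, h5⟩ := ih
    obtain ⟨hb, hd, O, hO, ht, hbq, hdq⟩ := h2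
    obtain ⟨g, hg1, -, hg3, hg4⟩ := exists_ccyc hA hL O hO ht
    obtain ⟨k, hk⟩ := hg4 b d hb hd hbq hdq
    refine ⟨g ^ k * τ, ?_, ?_, fun v hv hzv => ?_⟩
    · rw [AlgEquiv.mul_apply, h3]
      exact ClsG_fix g k hg1
    · rw [AlgEquiv.mul_apply, h4, hk]
    · rw [AlgEquiv.mul_apply, h5 v hv hzv]
      refine ClsG_fix g k (hg3 v hv fun hvq => hzv ?_)
      exact Rg.trans h1 (Rg.near O hO ht hb hv hbq hvq)

end WildJ
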