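import Mathlib.GroupTheory.GroupAction.Jordan
import Pool.Agent.helper21.SC.SchurA

/-!
# A primitive group with a cycle is doubly transitive (MP_11236d_an, stage 5)
-/

namespace WildJ

open Equiv

open scoped Pointwise in
theorem JordanC_prim {Ω : Type} {G : Subgroup (Perm Ω)} (hG : Prim G)
    (htr : ∀ x y : Ω, ∃ g ∈ G, g x = y) : MulAction.IsPreprimitive G Ω := by
  have : MulAction.IsPretransitive G Ω := by
    refine ⟨fun x y => ?_⟩
    obtain ⟨g, hg, h⟩ := htr x y
    exact ⟨⟨g, hg⟩, h⟩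
  refine { isTrivialBlock_of_isBlock := ?_ }
  intro B hB
  have heq : ∀ g h : G, ∀ x, x ∈ g • B → x ∈ h • B → g • B = h • B := by
    intro g h x hg hh
    rcases MulAction.isBlock_iff_smul_eq_smul_or_disjoint.1 hB g h with h1 | h1
    · exact h1
    · exact absurd hh (Set.disjoint_left.1 h1 hg)
  have hE : Equivalence (fun x y : Ω => x = y ∨ ∃ g : G, x ∈ g • B ∧ y ∈ g • B) := by
    refine ⟨fun x => Or.inl rfl, ?_, ?_⟩
    · rintro x y (h | ⟨g, h1, h2⟩)
      · exact Or.inl h.symm
      · exact Or.inr ⟨g, h2, h1⟩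
    · rintro x y z (rfl | ⟨g, h1, h2⟩) (rfl | ⟨h, h3, h4⟩)
      · exact Or.inl rfl
      · exact Or.inr ⟨h, h3, h4⟩
      · exact Or.inr ⟨g, h1, h2⟩
      · refine Or.inr ⟨g, h1, ?_⟩
        rw [heq g h y h2 h3]
        exact h4
  have hinv : ∀ g ∈ G, ∀ x y, (x = y ∨ ∃ k : G, x ∈ k • B ∧ y ∈ k • B) →
      (g x = g y ∨ ∃ k : G, g x ∈ k • B ∧ g y ∈ k • B) := by
    rintro g hg x y (rfl | ⟨k, h1, h2⟩)
    · exact Or.inl rfl
    · refine Or.inr ⟨⟨g, hg⟩ * k, ?_, ?_⟩
      · rw [mul_smul]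
        exact Set.smul_mem_smul_set h1
      · rw [mul_smul]
        exact Set.smul_mem_smul_set h2
  rcases hG _ hE hinv with h | h
  · left
    intro x hx y hy
    refine h x y (Or.inr ⟨1, ?_, ?_⟩)
    · rw [one_smul]
      exact hx
    · rw [one_smul]
      exact hy
  · rcases B.eq_empty_or_nonempty with hBe | ⟨b, hb⟩
    · left
      rw [hBe]
      exact Set.subsingleton_empty
    · right
      rw [Set.eq_univ_iff_forall]
      intro y
      rcases h b y with rfl | ⟨g, h1, h2⟩
      · exact hb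
      · have h3 := heq g 1 b h1 (by rw [one_smul]; exact hb)
        rw [one_smul] at h3
        rw [← h3]
        exact h2

theorem JordanC_cycle {Ω : Type} [Fintype Ω] [DecidableEq Ω] {c : Perm Ω} {r : Finset Ω}
    (h2 : 2 ≤ r.card) (hfix : ∀ x, x ∉ r → c x = x)
    (hcyc : ∀ x ∈ r, ∀ y ∈ r, ∃ k : ℕ, (c ^ k) x = y) : c.IsCycle ∧ c.support = r := by
  have hmove : ∀ x ∈ r, c x ≠ x := by
    intro x hx h
    obtain ⟨y, hy, hyx⟩ := Finset.exists_mem_ne (by omega : 1 < r.card) x
    obtain ⟨k, hk⟩ := hcyc x hx y hy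
    rw [Perm.pow_apply_eq_self_of_apply_eq_self h] at hk
    exact hyx hk.symm
  have hsupp : c.support = r := by
    ext x
    rw [Perm.mem_support]
    constructor
    · intro h
      by_contra hx
      exact h (hfix x hx)
    · exact hmove x
  refine ⟨?_, hsupp⟩
  have hne : r.Nonempty := by
    rw [← Finset.card_pos]
    omega
  obtain ⟨x, hx⟩ := hne
  refine ⟨x, hmove x hx, ?_⟩
  intro y hy
  have hy' : y ∈ r := by
    by_contra h
    exact hy (hfix y h)
  obtain ⟨k, hk⟩ := hcyc x hx y hy'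
  exact ⟨(k : ℤ), by rw [zpow_natCast]; exact hk⟩

/-- **Theorem of Jordan** for a cycle (of any length) with at least one fixed point.

Proof.  `MulAction.IsPreprimitive.is_two_pretransitive` (Mathlib, Jordan.lean) for `G` acting on `Ω` and `s` the
complement of `r`: `s.ncard = card Ω - card r = m + 1` with `m + 2 < card Ω` because `2 ≤ card r < card Ω`.
`c` lies in `fixingSubgroup G s`, and its powers act transitively on `r`.  `IsPreprimitive G Ω`: transitive
(`htr`) and every block is trivial: a block `B` and its translates give the invariant equivalence relation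
`R x y := ∃ g ∈ G, x ∈ g • B ∧ y ∈ g • B` (`MulAction.IsBlock`, `IsBlock.orbit_...`; every point lies in a
translate by transitivity, two translates are equal or disjoint).  The conclusion is
`IsMultiplyPretransitive G Ω 2` (`MulAction.is_two_pretransitive_iff`). -/
theorem jordan_cycle {Ω : Type} [Fintype Ω] [DecidableEq Ω] {G : Subgroup (Perm Ω)} (hG : Prim G)
    (htr : ∀ x y : Ω, ∃ g ∈ G, g x = y) {c : Perm Ω} (hc : c ∈ G) {r : Finset Ω}
    (h2 : 2 ≤ r.card) (hr : r.card < Fintype.card Ω) (hfix : ∀ x, x ∉ r → c x = x)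
    (hcyc : ∀ x ∈ r, ∀ y ∈ r, ∃ k : ℕ, (c ^ k) x = y) {a b a' b' : Ω} (hab : a ≠ b)
    (hab' : a' ≠ b') : ∃ g ∈ G, g a = a' ∧ g b = b' := by
  obtain ⟨hcy, hsupp⟩ := JordanC_cycle h2 hfix hcyc
  have hprim := JordanC_prim hG htr
  have hpt := Perm.isPretransitive_of_isCycle_mem hcy hc
  have hncard : ((c.support : Set Ω)ᶜ).ncard = Fintype.card Ω - r.card := by
    rw [Set.ncard_compl, Set.ncard_coe_finset, hsupp, Nat.card_eq_fintype_card]
  have h3 := hprim.is_two_pretransitive (n := Fintype.card Ω - r.card - 1)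
    (s := (c.support : Set Ω)ᶜ) (by rw [hncard]; omega)
    (by rw [Nat.card_eq_fintype_card]; omega) hpt
  obtain ⟨g, hg1, hg2⟩ := (MulAction.is_two_pretransitive_iff).1 h3 hab hab'
  exact ⟨g.1, g.2, hg1, hg2⟩

end WildJ
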