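import Pool.Agent.helper21.SC.SchurB

/-!
# The theorem of Schur: primitive groups of composite degree with a full cycle are doubly
transitive (MP_11236d_an, stage 5)
-/

namespace WildJ

open Equiv

/-- Double transitivity on `ZMod n`.

Proof.  `T = {d | ∃ g ∈ G, g 0 = 0 ∧ g a = d}` is a nonempty invariant set without `0` (`a ≠ 0`): if
`y - x = g a`, `g 0 = 0`, then `k = (translation by h x) * ...`: for `h ∈ G` the permutation
`z ↦ h (g z + x) - h x` lies in `G`, fixes `0` and maps `a` to `h y - h x`; for the converse use `h⁻¹`.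
`schur_set` gives `b ∈ T`. -/
theorem schur_zmod {n : ℕ} [NeZero n] {G : Subgroup (Perm (ZMod n))} (hG : Prim G)
    (htr : ∀ c : ZMod n, Equiv.addRight c ∈ G) (hn : 2 ≤ n) (hnp : ¬ n.Prime) {a b : ZMod n}
    (ha : a ≠ 0) (hb : b ≠ 0) : ∃ g ∈ G, g 0 = 0 ∧ g a = b := by
  classical
  let T : Finset (ZMod n) := Finset.univ.filter fun d => ∃ g ∈ G, g 0 = 0 ∧ g a = d
  have hmem : ∀ d, d ∈ T ↔ ∃ g ∈ G, g 0 = 0 ∧ g a = d := by
    intro d
    simp [T]
  have hdir : ∀ h ∈ G, ∀ x y, y - x ∈ T → h y - h x ∈ T := by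
    intro h hh x y hxy
    obtain ⟨g, hg, hg0, hga⟩ := (hmem _).1 hxy
    rw [hmem]
    refine ⟨Equiv.addRight (-(h x)) * h * Equiv.addRight x * g, ?_, ?_, ?_⟩
    · exact G.mul_mem (G.mul_mem (G.mul_mem (htr _) hh) (htr _)) hg
    · simp [Perm.mul_apply, hg0]
    · simp [Perm.mul_apply, hga, sub_eq_add_neg]
  have hGS : GS G T := by
    intro h hh x y
    refine ⟨fun hxy => ?_, hdir h hh x y⟩
    have h1 := hdir h⁻¹ (G.inv_mem hh) (h x) (h y) hxy
    simpa using h1
  refine (hmem b).1 (schur_set hG hn hnp hGS ⟨a, (hmem a).2 ⟨1, G.one_mem, rfl, rfl⟩⟩ ?_ b hb)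
  intro h0
  obtain ⟨g, _, hg0, hga⟩ := (hmem 0).1 h0
  exact ha (g.injective (hga.trans hg0.symm))

/-- **Theorem of Schur.**

Proof.  Let `n = card Ω` and `x0 ∈ Ω`.  The map `ZMod n → Ω`, `k ↦ c ^ k x0` (`k.val`) is a bijection `e` with
`c (e k) = e (k + 1)` (`c` acts as one cycle: its order is `n` and `c ^ n = 1`; surjective by `hcyc`, hence
bijective by cardinality).  The group `G' = {π | e π e⁻¹ ∈ G}` (`Subgroup.comap` of `Equiv.permCongr`) contains
the translations and is primitive.  `schur_zmod`; move `a`, `a'` to `0` by powers of `c`. -/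
theorem schur {Ω : Type} [Fintype Ω] [DecidableEq Ω] {G : Subgroup (Perm Ω)} (hG : Prim G)
    {c : Perm Ω} (hc : c ∈ G) (hcyc : ∀ x y : Ω, ∃ k : ℕ, (c ^ k) x = y)
    (hn : 2 ≤ Fintype.card Ω) (hnp : ¬ (Fintype.card Ω).Prime) {a b a' b' : Ω} (hab : a ≠ b)
    (hab' : a' ≠ b') : ∃ g ∈ G, g a = a' ∧ g b = b' := by
  classical
  have : NeZero (Fintype.card Ω) := ⟨by omega⟩
  have hne : ∀ x, c x ≠ x := by
    intro x hx
    have hfix : ∀ k : ℕ, (c ^ k) x = x := by
      intro k
      induction k with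
      | zero => rfl
      | succ k ih => rw [pow_succ, Perm.mul_apply, hx, ih]
    have h1 : ∀ y, y = x := by
      intro y
      obtain ⟨k, hk⟩ := hcyc x y
      rw [← hk, hfix k]
    exact hab ((h1 a).trans (h1 b).symm)
  have hcy : c.IsCycle := by
    refine ⟨a, hne a, fun y _ => ?_⟩
    obtain ⟨k, hk⟩ := hcyc a y
    exact ⟨k, by rw [zpow_natCast]; exact hk⟩
  have hord : orderOf c = Fintype.card Ω := by
    rw [hcy.orderOf]
    have : c.support = Finset.univ := by
      ext x
      simp [hne x]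
    rw [this, Finset.card_univ]
  let e0 : ZMod (Fintype.card Ω) → Ω := fun k => (c ^ k.val) a
  have he0 : ∀ j : ℕ, e0 (j : ZMod (Fintype.card Ω)) = (c ^ j) a := by
    intro j
    simp only [e0]
    rw [ZMod.val_natCast, ← hord, pow_mod_orderOf]
  have hsurj : Function.Surjective e0 := by
    intro y
    obtain ⟨k, hk⟩ := hcyc a y
    exact ⟨(k : ZMod _), (he0 k).trans hk⟩
  have hbij : Function.Bijective e0 :=
    (Fintype.bijective_iff_surjective_and_card e0).2 ⟨hsurj, ZMod.card _⟩
  let e : ZMod (Fintype.card Ω) ≃ Ω := Equiv.ofBijective e0 hbij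
  have he : ∀ k, e k = (c ^ k.val) a := fun k => rfl
  have hadd : ∀ (k d : ZMod (Fintype.card Ω)), e (k + d) = (c ^ d.val) (e k) := by
    intro k d
    have h1 : k + d = ((d.val + k.val : ℕ) : ZMod (Fintype.card Ω)) := by
      push_cast
      rw [ZMod.natCast_zmod_val, ZMod.natCast_zmod_val, add_comm]
    have h2 : e (k + d) = (c ^ (d.val + k.val)) a := by
      rw [h1]
      exact he0 _
    rw [h2, he, pow_add, Perm.mul_apply]
  let G' : Subgroup (Perm (ZMod (Fintype.card Ω))) := G.comap (e.permCongrHom).toMonoidHom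
  have hG' : ∀ π, π ∈ G' ↔ e.permCongr π ∈ G := fun π => Iff.rfl
  have htr : ∀ d : ZMod (Fintype.card Ω), Equiv.addRight d ∈ G' := by
    intro d
    rw [hG']
    have : e.permCongr (Equiv.addRight d) = c ^ d.val := by
      ext x
      rw [Equiv.permCongr_apply, Equiv.coe_addRight, hadd, Equiv.apply_symm_apply]
    rw [this]
    exact G.pow_mem hc _
  have hprim : Prim G' := by
    intro R hR hinv
    have hR' : Equivalence fun x y : Ω => R (e.symm x) (e.symm y) :=
      ⟨fun x => hR.refl _, fun h => hR.symm h, fun h h' => hR.trans h h'⟩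
    rcases hG _ hR' (by
      intro g hg x y hxy
      have h1 : e.symm.permCongr g ∈ G' := by
        rw [hG']
        have : e.permCongr (e.symm.permCongr g) = g := by
          ext x
          simp [Equiv.permCongr_apply]
        rw [this]
        exact hg
      have h2 := hinv _ h1 _ _ hxy
      simpa [Equiv.permCongr_apply] using h2) with h | h
    · left
      intro x y hxy
      have := h (e x) (e y) (by simpa using hxy)
      exact e.injective this
    · right
      intro x y
      have := h (e x) (e y)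
      simpa using this
  have h1 : e.symm b - e.symm a ≠ 0 := by
    rw [sub_ne_zero]
    exact fun h => hab (e.symm.injective h).symm
  have h2 : e.symm b' - e.symm a' ≠ 0 := by
    rw [sub_ne_zero]
    exact fun h => hab' (e.symm.injective h).symm
  obtain ⟨g, hg, hg0, hg1⟩ := schur_zmod hprim htr hn hnp h1 h2
  have hk : Equiv.addRight (e.symm a') * g * Equiv.addRight (-(e.symm a)) ∈ G' :=
    G'.mul_mem (G'.mul_mem (htr _) hg) (htr _)
  refine ⟨_, (hG' _).1 hk, ?_, ?_⟩
  · rw [Equiv.permCongr_apply, Perm.mul_apply, Perm.mul_apply, Equiv.coe_addRight,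
      Equiv.coe_addRight]
    beta_reduce
    rw [add_neg_cancel, hg0, zero_add, Equiv.apply_symm_apply]
  · rw [Equiv.permCongr_apply, Perm.mul_apply, Perm.mul_apply, Equiv.coe_addRight,
      Equiv.coe_addRight]
    beta_reduce
    rw [← sub_eq_add_neg, hg1, sub_add_cancel, Equiv.apply_symm_apply]

end WildJ
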