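import Pool.Agent.helper21.HD.PrimeS
import Pool.Agent.helper21.SC.SchurC
import Pool.Agent.helper21.SC.JordanC

/-!
# Indecomposable functions with an index coprime to the other indices of its fibre
(MP_11236d_an, stage 5)
-/

namespace WildJ

open Polynomial WildRat WildS WildV WildH

variable {L : Type} [Field L] [Algebra ℂ L]

/-- `A` is indecomposable. -/
def Indec (A : RF) : Prop := ∀ B C : RF, A.IsComp B C → 1 ≤ C.n → C.n = 1 ∨ B.n = 1

/-- `A` is indecomposable, for normalised right factors. -/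
def IndecN (A : RF) : Prop := ∀ B C : RF, A.IsComp B C → C.P.Monic →
  C.Q.natDegree < C.P.natDegree → C.n = 1 ∨ B.n = 1

theorem Indec.norm {A : RF} (h : Indec A) : IndecN A := by
  intro B C hc _ hlt
  refine h B C hc ?_
  have h3 : C.n = max C.P.natDegree C.Q.natDegree := rfl
  omega

open Equiv in
/-- The group of the permutations of the solutions induced by automorphisms is primitive.

Proof.  `s` is the set of all solutions, `Act_G s t` (HD/Act.lean) the group.  Let `R` be an invariant equivalence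
relation on `s`.  Extend it to `L`: `R' z w := ∃ (hz : z ∈ s) (hw : w ∈ s), R ⟨z, hz⟩ ⟨w, hw⟩`.  `exists_class`
(HD/ClassF.lean) gives `A = B ∘ C` and `R' z w ↔ Sm C z w` for solutions `z`, `w`.  By `Indec`, `C.n = 1` or
`B.n = 1`, and `A.n = B.n * C.n` (`comp_facts`).  The class of `z` has `C.n` elements (`Amb.cls`); so it is
`{z}` or all of `s` (`s.card = A.n`).  An automorphism `τ` with `τ t = t` induces an element of
`Act_G s t`: `Act_ind`. -/
theorem Ind_prim {A : RF} (hn : 1 ≤ A.n) (hm : A.P.Monic) (hlt : A.Q.natDegree < A.P.natDegree)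
    (hind : IndecN A) {δ : E →ₐ[ℂ] L} (hL : Amb δ) {s : Finset L}
    (hs : ∀ z, z ∈ s ↔ Sol A (δ RatFunc.X) z) (hsc : s.card = A.n) :
    Prim (Act_G s (δ RatFunc.X)) := by
  classical
  intro R hR hinv
  have hst : ∀ τ : L ≃ₐ[ℂ] L, τ (δ RatFunc.X) = δ RatFunc.X → ∀ z ∈ s, τ z ∈ s :=
    fun τ hτ z hz => (hs _).2 (Sol.map ((hs z).1 hz) τ hτ)
  obtain ⟨B, C, hc, hCm, hClt, hcls⟩ := exists_class hn hm hlt hL
    (R := fun z w => ∃ (hz : z ∈ s) (hw : w ∈ s), R ⟨z, hz⟩ ⟨w, hw⟩)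
    (fun z hz => ⟨(hs z).2 hz, (hs z).2 hz, hR.refl _⟩)
    (by
      rintro z w - - ⟨hz, hw, h⟩
      exact ⟨hw, hz, hR.symm h⟩)
    (by
      rintro z w v - - - ⟨hz, hw, h⟩ ⟨hw', hv, h'⟩
      exact ⟨hz, hv, hR.trans h h'⟩)
    (by
      rintro τ z w hτ - - ⟨hz, hw, h⟩
      obtain ⟨π, hπ, hπ'⟩ := Act_ind τ hτ (hst τ hτ)
      refine ⟨hst τ hτ z hz, hst τ hτ w hw, ?_⟩
      have h1 := hinv π hπ _ _ h
      have e1 : π ⟨z, hz⟩ = ⟨τ z, hst τ hτ z hz⟩ := Subtype.ext (hπ' ⟨z, hz⟩).symm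
      have e2 : π ⟨w, hw⟩ = ⟨τ w, hst τ hτ w hw⟩ := Subtype.ext (hπ' ⟨w, hw⟩).symm
      rwa [e1, e2] at h1)
  have hCn : 1 ≤ C.n := by
    have h3 : C.n = max C.P.natDegree C.Q.natDegree := rfl
    omega
  obtain ⟨hB1, hnBC, -, -⟩ := comp_facts hc hn hCn
  rcases hind B C hc hCm hClt with h1 | h1
  · left
    rintro ⟨x, hx⟩ ⟨y, hy⟩ hxy
    have h2 := (hcls x y ((hs x).1 hx) ((hs y).1 hy)).1 ⟨hx, hy, hxy⟩
    obtain ⟨c, hc1, hc2, -⟩ := hL.cls hn hc hCm hClt ((hs x).1 hx)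
    rw [h1] at hc2
    obtain ⟨w, hw⟩ := Finset.card_eq_one.1 hc2
    have hx1 : x ∈ c := (hc1 x).2 rfl
    have hy1 : y ∈ c := (hc1 y).2 h2
    rw [hw, Finset.mem_singleton] at hx1 hy1
    exact Subtype.ext (hx1.trans hy1.symm)
  · right
    rintro ⟨x, hx⟩ ⟨y, hy⟩
    obtain ⟨c, hc1, hc2, hc3⟩ := hL.cls hn hc hCm hClt ((hs x).1 hx)
    have hsub : c ⊆ s := fun w hw => (hs w).2 (hc3 w hw)
    have heq : c = s := Finset.eq_of_subset_of_card_le hsub (by
      rw [hsc, hc2, hnBC, h1, one_mul])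
    have hyc : y ∈ c := by
      rw [heq]
      exact hy
    obtain ⟨_, _, h⟩ := (hcls x y ((hs x).1 hx) ((hs y).1 hy)).2 ((hc1 y).1 hyc)
    exact h

/-- An automorphism which is a cycle on the solutions near `q` and fixes the others.

Proof.  As `exists_lcyc` in HD/Cyc.lean (there for `NormL`): `σ` from `exists_sigma` (HD/Conj.lean) acts as one
cycle of length `A.e a` on the solutions near `a`, for every `a` over `c` (`near_count`, `Cyc_period`).  Let `m` be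
the product of the indices of the points `a ≠ q` over `c`; it is coprime to `e = A.e q`.  `g = σ ^ m` fixes the
solutions near `a ≠ q`, and it is a cycle on the solutions near `q`: for `k` with `σ ^ k z = w` choose `j`
with `m j ≡ k` modulo `e` (`Cyc_mod`). -/
theorem Ind_cyc {A : RF} (hn : 1 ≤ A.n) (hm : A.P.Monic) (hlt : A.Q.natDegree < A.P.natDegree)
    {c q : ℂ} (hq : A.val (some q) = some c)
    (hcop : ∀ w, w ≠ some q → A.val w = some c → Nat.Coprime (A.e (some q)) (A.e w))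
    {δ : E →ₐ[ℂ] L} (hL : Amb δ) :
    ∃ (g : L ≃ₐ[ℂ] L) (r : Finset L), g (δ RatFunc.X) = δ RatFunc.X ∧ r.card = A.e (some q) ∧
      (∀ z ∈ r, Sol A (δ RatFunc.X) z) ∧ (∀ z ∈ r, g z ∈ r) ∧
      (∀ z, Sol A (δ RatFunc.X) z → z ∉ r → g z = z) ∧
      ∀ z ∈ r, ∀ w ∈ r, ∃ k : ℕ, (g ^ k) z = w := by
  classical
  obtain ⟨O, hO, ht⟩ := exists_O (δ := δ) c
  obtain ⟨σ, hσt, hσn, hσtr⟩ := exists_sigma hn hm hlt hL O hO ht
  obtain ⟨hnear, hcnt⟩ := near_count hn hm hlt hL O hO ht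
  have hsol : ∀ z, Sol A (δ RatFunc.X) z → Sol A (δ RatFunc.X) (σ z) := fun z hz =>
    Sol.map hz σ hσt
  have hk : ∀ (k : ℕ) (z : L), Sol A (δ RatFunc.X) z → Sol A (δ RatFunc.X) ((⇑σ)^[k] z) ∧
      ∀ a, Near O z a → Near O ((⇑σ)^[k] z) a := by
    intro k
    induction k with
    | zero => exact fun z hz => ⟨hz, fun a ha => ha⟩
    | succ k ih =>
      intro z hz
      rw [Function.iterate_succ_apply']
      obtain ⟨h1, h2⟩ := ih z hz
      exact ⟨hsol _ h1, fun a ha => hσn _ h1 a (h2 a ha)⟩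
  have hcyc : ∀ a ∈ fC A c, ∀ z, Sol A (δ RatFunc.X) z → Near O z a →
      (⇑σ)^[A.e (some a)] z = z := by
    intro a ha z hz hza
    obtain ⟨S, hS, hSc⟩ := hcnt a ha
    rw [← hSc]
    refine Cyc_period _ S ?_ ?_ ((hS z).2 ⟨hz, hza⟩)
    · intro w hw
      rw [hS] at hw ⊢
      exact ⟨hsol w hw.1, hσn w hw.1 a hw.2⟩
    · intro w hw w' hw'
      rw [hS] at hw hw'
      obtain ⟨k, hk⟩ := hσtr w w' hw.1 hw'.1 a hw.2 hw'.2
      rw [Cyc_pow] at hk
      exact ⟨k, hk⟩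
  have hqf : q ∈ fC A c := (mem_fC hn).2 hq
  obtain ⟨r, hr, hrc⟩ := hcnt q hqf
  set m : ℕ := ∏ a ∈ (fC A c).erase q, A.e (some a) with hm'
  have hmc : m.Coprime (A.e (some q)) := by
    rw [hm']
    apply Nat.Coprime.prod_left
    intro a ha
    rw [Finset.mem_erase] at ha
    exact (hcop (some a) (fun h => ha.1 (Option.some_injective _ h)) ((mem_fC hn).1 ha.2)).symm
  refine ⟨σ ^ m, r, ?_, hrc, fun z hz => ((hr z).1 hz).1, ?_, ?_, ?_⟩
  · rw [Cyc_pow]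
    exact Function.iterate_fixed hσt m
  · intro z hz
    rw [hr] at hz ⊢
    rw [Cyc_pow]
    exact ⟨(hk m z hz.1).1, (hk m z hz.1).2 q hz.2⟩
  · intro z hz hzr
    obtain ⟨a, hza, ha, -⟩ := hnear z hz
    have haq : a ≠ q := by
      rintro rfl
      exact hzr ((hr z).2 ⟨hz, hza⟩)
    rw [Cyc_pow]
    exact Cyc_dvd (hcyc a ha z hz hza)
      (Finset.dvd_prod_of_mem (fun a => A.e (some a)) (Finset.mem_erase.2 ⟨haq, ha⟩))
  · intro z hz z' hz'
    rcases Nat.lt_or_ge 1 (A.e (some q)) with h1 | h1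
    · rw [hr] at hz hz'
      obtain ⟨k, hk'⟩ := hσtr z z' hz.1 hz'.1 q hz.2 hz'.2
      obtain ⟨j, -, hj⟩ := Nat.exists_mul_mod_eq_one_of_coprime hmc h1
      refine ⟨j * k, ?_⟩
      rw [← pow_mul, Cyc_pow]
      rw [Cyc_pow] at hk'
      rw [← hk']
      refine Cyc_mod (hcyc q hqf z hz.1 hz.2) ?_
      rw [← mul_assoc, Nat.mul_mod, hj, one_mul, Nat.mod_mod]
    · refine ⟨0, ?_⟩
      have h2 : r.card ≤ 1 := by omega
      exact Finset.card_le_one.1 h2 z hz z' hz'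

/-- **Indecomposable functions.**

Proof.  `amb_closure` with `K = E`, `φ = AlgHom.id` as in `prime_alt` (HD/PrimeD.lean): `δ` with values in
`L = AlgebraicClosure E`.  `Ind_prim`, `Ind_cyc`.  The element `g` induces a permutation `π` of `s`
(`Act_ind`, `Act_pow`).  If `A.n` is not prime: if `r = s` (`A.e q = A.n`), `schur`; otherwise
`jordan_cycle` (`Amb.trans` for the transitivity).  So any two pairs of different solutions are conjugate,
and `irr_of_two` gives `DTm A`, as in `prime_alt`. -/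
theorem ind_alt {A : RF} (hn : 2 ≤ A.n) (hm : A.P.Monic) (hlt : A.Q.natDegree < A.P.natDegree)
    (hind : IndecN A) {c q : ℂ} (hq : A.val (some q) = some c) (h2 : 2 ≤ A.e (some q))
    (hcop : ∀ w, w ≠ some q → A.val w = some c → Nat.Coprime (A.e (some q)) (A.e w)) :
    DTm A ∨ A.n.Prime := by
  classical
  have hn1 : 1 ≤ A.n := by omega
  by_cases hp : A.n.Prime
  · exact Or.inr hp
  left
  obtain ⟨δ, -, hL⟩ := amb_closure hn1 RatK_finC_id
  obtain ⟨s, hs, hsc, -⟩ := Amb.roots hn1 hm hlt hL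
  have hprim := Ind_prim hn1 hm hlt hind hL hs hsc
  obtain ⟨g, r, hg, hrc, hrsol, hgr, hgfix, hgcyc⟩ := Ind_cyc hn1 hm hlt hq hcop hL
  have hst : ∀ τ : (AlgebraicClosure E) ≃ₐ[ℂ] (AlgebraicClosure E),
      τ (δ RatFunc.X) = δ RatFunc.X → ∀ z ∈ s, τ z ∈ s :=
    fun τ hτ z hz => (hs _).2 (Sol.map ((hs z).1 hz) τ hτ)
  obtain ⟨π, hπ, hgπ⟩ := Act_ind g hg (hst g hg)
  have hrs : r ⊆ s := fun z hz => (hs z).2 (hrsol z hz)
  have hcs : Fintype.card s = A.n := by rw [Fintype.card_coe, hsc]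
  have htwo : ∀ a b a' b' : s, a ≠ b → a' ≠ b' →
      ∃ σ ∈ Act_G s (δ RatFunc.X), σ a = a' ∧ σ b = b' := by
    intro a b a' b' hab hab'
    by_cases hr : r.card < A.n
    · have hcard : (Finset.univ.filter fun z : s => (z : AlgebraicClosure E) ∈ r).card =
          r.card := by
        rw [← Finset.card_map (Function.Embedding.subtype fun x => x ∈ s)]
        congr 1
        ext x
        rw [Finset.mem_map]
        constructor
        · rintro ⟨y, hy, rfl⟩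
          exact (Finset.mem_filter.1 hy).2
        · intro hx
          exact ⟨⟨x, hrs hx⟩, Finset.mem_filter.2 ⟨Finset.mem_univ _, hx⟩, rfl⟩
      refine jordan_cycle hprim ?_ hπ (r := Finset.univ.filter fun z : s =>
        (z : AlgebraicClosure E) ∈ r) (by omega) (by omega) ?_ ?_ hab hab'
      · rintro ⟨x, hx⟩ ⟨y, hy⟩
        obtain ⟨τ, h1, h2⟩ := Amb.trans hn1 hL ((hs x).1 hx) ((hs y).1 hy)
        obtain ⟨ρ, hρ, hτρ⟩ := Act_ind τ h1 (hst τ h1)
        exact ⟨ρ, hρ, Subtype.ext ((hτρ ⟨x, hx⟩).symm.trans h2)⟩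
      · rintro ⟨x, hx⟩ hxr
        have hxr' : x ∉ r := fun h => hxr (Finset.mem_filter.2 ⟨Finset.mem_univ _, h⟩)
        exact Subtype.ext ((hgπ ⟨x, hx⟩).symm.trans (hgfix x ((hs x).1 hx) hxr'))
      · rintro ⟨x, hx⟩ hxr ⟨y, hy⟩ hyr
        obtain ⟨k, hk⟩ := hgcyc x (Finset.mem_filter.1 hxr).2 y (Finset.mem_filter.1 hyr).2
        exact ⟨k, Subtype.ext ((Act_pow hgπ k ⟨x, hx⟩).symm.trans hk)⟩
    · have hrs' : r = s := Finset.eq_of_subset_of_card_le hrs (by omega)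
      refine schur hprim hπ ?_ (by omega) (by rw [hcs]; exact hp) hab hab'
      rintro ⟨x, hx⟩ ⟨y, hy⟩
      obtain ⟨k, hk⟩ := hgcyc x (by rw [hrs']; exact hx) y (by rw [hrs']; exact hy)
      exact ⟨k, Subtype.ext ((Act_pow hgπ k ⟨x, hx⟩).symm.trans hk)⟩
  have hsne : s.Nonempty := by
    rw [← Finset.card_pos, hsc]
    exact hn1
  obtain ⟨u, hu⟩ := hsne
  obtain ⟨δu, hδu, hδu2, hLu⟩ := Amb.sol hn1 hL ((hs u).1 hu)
  apply irr_of_two hn hm hlt hLu
  intro v v' hv hvu hv' hvu'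
  have hv1 := (Build_sol hn1 δu v).2 hv
  have hv1' := (Build_sol hn1 δu v').2 hv'
  rw [hδu2] at hv1 hv1'
  rw [hδu] at hvu hvu' ⊢
  obtain ⟨σ, ⟨τ, -, hτ⟩, h3, h4⟩ := htwo ⟨u, hu⟩ ⟨v, (hs v).2 hv1⟩ ⟨u, hu⟩ ⟨v', (hs v').2 hv1'⟩
    (fun h => hvu (congrArg Subtype.val h).symm) (fun h => hvu' (congrArg Subtype.val h).symm)
  refine ⟨τ, ?_, ?_⟩
  · have h5 := hτ ⟨u, hu⟩
    rw [h3] at h5
    exact h5
  · have h5 := hτ ⟨v, (hs v).2 hv1⟩
    rw [h4] at h5
    exact h5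

end WildJ
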