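import Pool.Agent.helper21.HD.BuildS
import Pool.Agent.helper21.SC.ClsG
import Pool.Agent.helper21.SC.Ind

/-! Existence of the class data for an index coprime to the other indices of its fibre. -/

namespace WildJ

open Polynomial WildRat WildS WildV WildH WildN

variable {K : Type} [Field K] [Algebra ℂ K] {L : Type} [Field L] [Algebra ℂ L]

/-- As `exists_O_place` (HD/Build.lean). -/
theorem exists_O_placeG {A : RF} {c q : ℂ} {l : ℕ} (hA : NormC A c q l) {φ ψ : E →ₐ[ℂ] K}
    {P : Pl K} (hP : P ∈ fib φ q) (hP' : P ∈ fib ψ q) :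
    ∃ O : ValuationSubring (AlgebraicClosure K),
      (∀ c : ℂ, algebraMap ℂ _ c ∈ O) ∧ Near O (algebraMap K _ (φ (elt A))) c ∧
      Near O (algebraMap K _ (φ RatFunc.X)) q ∧ Near O (algebraMap K _ (ψ RatFunc.X)) q := by
  have hn : 1 ≤ A.n := hA.one_le
  obtain ⟨O, h1, h2⟩ := Transp_extend P
  have hsc : ∀ x : ℂ, algebraMap ℂ (AlgebraicClosure K) x =
      algebraMap K (AlgebraicClosure K) (algebraMap ℂ K x) :=
    fun x => IsScalarTower.algebraMap_apply ℂ K (AlgebraicClosure K) x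
  have hnear : ∀ (z : K) (a : ℂ), 0 < P.ord (z - algebraMap ℂ K a) →
      Near O (algebraMap K (AlgebraicClosure K) z) a := by
    intro z a h
    unfold Near
    rw [hsc, ← map_sub]
    exact h2 _ h
  refine ⟨O, fun x => ?_, ?_, hnear _ _ hP, hnear _ _ hP'⟩
  · rw [hsc]
    exact h1 _ (by rw [P.ord_C])
  · apply hnear
    rw [← Cnt_ord hn hA.lt hA.mem hP]
    have h3 : 0 < (A.e (some q) : ℤ) := by exact_mod_cast A.one_le_e hn (some q)
    exact mul_pos h3 hP

theorem Sm_trans {C : RF} {z w v : L} (h1 : Sm C z w) (h2 : Sm C w v) (hw : aeval w C.Q ≠ 0) :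
    Sm C z v := by
  unfold Sm at h1 h2 ⊢
  apply mul_left_cancel₀ hw
  linear_combination (aeval v C.Q) * h1 + (aeval z C.Q) * h2

theorem Sm_symm {C : RF} {z w : L} (h : Sm C z w) : Sm C w z := by
  unfold Sm at h ⊢
  exact h.symm

/-- `C(q)` is finite. -/
theorem val_finite {A B C : RF} {c q : ℂ} {l : ℕ} (hA : NormC A c q l) (hcomp : A.IsComp B C)
    (hlt : C.Q.natDegree < C.P.natDegree) : ∃ p, C.val (some q) = some p := by
  obtain ⟨hC, hB, hmul, hval, he, hBlt, hBun, hCun⟩ :=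
    comp_norm hA.one_le hA.lt hA.unram hcomp hlt
  rcases hv : C.val (some q) with _ | p
  · have h1 := hval (some q)
    rw [hA.val, hv, Quad_val_none B hBlt] at h1
    exact absurd h1 (by simp)
  · exact ⟨p, rfl⟩

/-- The number of the solutions near `q` in a class. -/
theorem near_class {A B C : RF} {c q : ℂ} {l : ℕ} (hA : NormC A c q l) (hcomp : A.IsComp B C)
    (hCm : C.P.Monic) (hClt : C.Q.natDegree < C.P.natDegree) {δ : E →ₐ[ℂ] L} (hL : Amb δ)
    {u : L} (hu1 : Sol A (δ RatFunc.X) u) (O : ValuationSubring L)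
    (hO : ∀ x : ℂ, algebraMap ℂ L x ∈ O) (hu2 : Near O u q) :
    ∃ s : Finset L, (∀ w, w ∈ s ↔ Sm C u w ∧ Near O w q) ∧ s.card = C.e (some q) := by
  obtain ⟨hC, hB, hmul, hval, he, hBlt, hBun, hCun⟩ :=
    comp_norm hA.one_le hA.lt hA.unram hcomp hClt
  obtain ⟨p, hp⟩ := val_finite hA hcomp hClt
  obtain ⟨hCQ, hc'⟩ := (Quad_val_some C).1 hp
  obtain ⟨δu, hδu, -, hLu⟩ := Amb.sol hA.one_le hL hu1
  obtain ⟨δ', hδ', hL'⟩ := Build_amb hC hLu
  have hsol : ∀ w, Sol C (δ' RatFunc.X) w ↔ Sm C u w := by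
    intro w
    rw [hδ', Build_sol hC δu w, hδu]
  have ht' : Near O (δ' RatFunc.X) p := by
    rw [hδ', coord_elt, hδu]
    exact Build_near O hO hu2 hCQ hc'
  obtain ⟨s, hs, hsc⟩ := (near_count hC hCm hClt hL' O hO ht').2 q ((mem_fC hC).2 hp)
  exact ⟨s, fun w => by rw [hs, hsol], hsc⟩

/-- A right factor of the class function `C` is trivial.

`Rg` is generated by the steps; if all steps are inside the classes of `C2`, then `C2` has the degree
of `C`; otherwise the class of `z` under `C2` consists of solutions near `q`, so `C2` is totally ramified at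
`q`, and its degree is one by the condition `tot`. -/
theorem BuildG_indec {A B C : RF} {c q : ℂ} {l : ℕ} (hA : NormC A c q l) (hcomp : A.IsComp B C)
    (hCm : C.P.Monic) (hClt : C.Q.natDegree < C.P.natDegree) {δ : E →ₐ[ℂ] L} (hL : Amb δ)
    (hRC : ∀ z z', Sol A (δ RatFunc.X) z → Sol A (δ RatFunc.X) z' →
      (Rg A c q (δ RatFunc.X) z z' ↔ Sm C z z')) : IndecN C := by
  classical
  intro D C2 hDC hC2m hC2lt
  have hn := hA.one_le
  obtain ⟨hC, hB, hmul, hval, he, hBlt, hBun, hCun⟩ :=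
    comp_norm hA.one_le hA.lt hA.unram hcomp hClt
  have hC2 : 1 ≤ C2.n := by
    have h3 : C2.n = max C2.P.natDegree C2.Q.natDegree := rfl
    omega
  obtain ⟨hD, hCD, -, -⟩ := comp_facts hDC hC hC2
  obtain ⟨B2, hB2, hB2n⟩ := exists_comp B D hB hD
  have hcomp2 : A.IsComp B2 C2 := by
    show elt A = B2.app (elt C2)
    have h1 : elt A = B.app (elt C) := hcomp
    have h2 : elt C = D.app (elt C2) := hDC
    rw [h1, h2, hB2.app_eq (elt_nonConst C2 hC2)]
  have hQ : ∀ w, Sol A (δ RatFunc.X) w → aeval w C2.Q ≠ 0 := by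
    intro w hw
    obtain ⟨δw, hδw, -, -⟩ := Amb.sol hn hL hw
    rw [← hδw]
    exact (coord_nonConst δw).aeval_ne_zero (C2.Q_ne_zero hC2)
  have hstep : ∀ z w, Rg A c q (δ RatFunc.X) z w → Sol A (δ RatFunc.X) z →
      Sol A (δ RatFunc.X) w := by
    intro z w h hz
    induction h with
    | refl => exact hz
    | tail _ h2 _ => exact h2.2.1
  by_cases hall : ∀ z w, Stp A c q (δ RatFunc.X) z w → Sm C2 z w
  · right
    obtain ⟨s, hs, hsc, -⟩ := Amb.roots hn hA.monic hA.lt hL
    have hsne : s.Nonempty := by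
      rw [← Finset.card_pos, hsc]
      exact hn
    obtain ⟨u, hu⟩ := hsne
    have hu1 := (hs u).1 hu
    have hR2 : ∀ w, Rg A c q (δ RatFunc.X) u w → Sm C2 u w := by
      intro w h
      induction h with
      | refl => exact rfl
      | tail h1 h2 ih => exact Sm_trans ih (hall _ _ h2) (hQ _ h2.1)
    obtain ⟨s1, hs1, hs1c, hs1A⟩ := Amb.cls hn hcomp hCm hClt hL hu1
    obtain ⟨s2, hs2, hs2c, -⟩ := Amb.cls hn hcomp2 hC2m hC2lt hL hu1
    have hsub : s1 ⊆ s2 := by
      intro w hw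
      exact (hs2 w).2 (hR2 w ((hRC u w hu1 (hs1A w hw)).2 ((hs1 w).1 hw)))
    have hle := Finset.card_le_card hsub
    rw [hs1c, hs2c, hCD] at hle
    have h4 : D.n * C2.n ≤ 1 * C2.n := by omega
    have h5 := Nat.le_of_mul_le_mul_right h4 hC2
    omega
  · left
    push Not at hall
    obtain ⟨z, w, hzw, hnot⟩ := hall
    obtain ⟨hz, hw, O, hO, ht, hzq, hwq⟩ := hzw
    obtain ⟨g, hg1, hg2, hg3, hg4⟩ := exists_ccyc hA hL O hO ht
    -- `z` and `g z` lie in different classes of `C2`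
    have hgz : ¬ Sm C2 z (g z) := by
      intro h
      obtain ⟨k, hk⟩ := hg4 z w hz hw hzq hwq
      apply hnot
      rw [← hk]
      have hsk : ∀ k : ℕ, Sol A (δ RatFunc.X) ((g ^ k) z) := by
        intro k
        exact hz.map (g ^ k) (ClsG_fix g k hg1)
      have : ∀ k : ℕ, Sm C2 z ((g ^ k) z) := by
        intro k
        induction k with
        | zero => exact rfl
        | succ k ih =>
          have h1 : Sm C2 ((g ^ k) z) ((g ^ (k + 1)) z) := by
            have h2 := h.map (g ^ k)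
            have h3 : (g ^ k) (g z) = (g ^ (k + 1)) z := by
              rw [pow_succ, AlgEquiv.mul_apply]
            rw [h3] at h2
            exact h2
          exact Sm_trans ih h1 (hQ _ (hsk k))
      exact this k
    obtain ⟨s2, hs2, hs2c, hs2A⟩ := Amb.cls hn hcomp2 hC2m hC2lt hL hz
    have hnear : ∀ v ∈ s2, Near O v q := by
      intro v hv
      by_contra hvq
      have hv1 := hs2A v hv
      have hgv := hg3 v hv1 hvq
      have h1 : Sm C2 z v := (hs2 v).1 hv
      have h2 : Sm C2 (g z) v := by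
        have h3 := h1.map g
        rw [hgv] at h3
        exact h3
      exact hgz (Sm_trans h1 (Sm_symm h2) (hQ v hv1))
    obtain ⟨s3, hs3, hs3c⟩ := near_class hA hcomp2 hC2m hC2lt hL hz O hO hzq
    have h23 : s3 = s2 := by
      ext v
      rw [hs3, hs2]
      exact ⟨fun h => h.1, fun h => ⟨h, hnear v ((hs2 v).2 h)⟩⟩
    have htot : C2.e (some q) = C2.n := by rw [← hs3c, h23, hs2c]
    by_contra hne
    have hl := hA.tot B2 C2 hcomp2 (by omega) htot
    -- the class of `z` is the whole set of the solutions near `q`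
    obtain ⟨r, hr, hrc⟩ := (near_count hn hA.monic hA.lt hL O hO ht).2 q hA.mem
    have hsub : s2 ⊆ r := fun v hv => (hr v).2 ⟨hs2A v hv, hnear v hv⟩
    have heq : s2 = r := Finset.eq_of_subset_of_card_le hsub (by
      rw [hrc, hs2c, hA.ram, hl])
    exact hnot ((hs2 w).1 (by rw [heq]; exact (hr w).2 ⟨hw, hwq⟩))

/-- **Existence of the class data.** -/
theorem exists_ClC {A : RF} {c q : ℂ} {l : ℕ} (hA : NormC A c q l) {φ : E →ₐ[ℂ] K}
    (hφ : FinC φ) : ∃ B C : RF, ClC A B C c q l φ := by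
  classical
  have hn : 1 ≤ A.n := hA.one_le
  obtain ⟨δ, hδ, hL⟩ := amb_closure hn hφ
  obtain ⟨B, C, hcomp, hCm, hClt, hRC⟩ := exists_class hn hA.monic hA.lt hL
    (R := Rg A c q (δ RatFunc.X)) (fun z _ => Rg.refl z) (fun z w _ _ h => h.symm)
    (fun z w v _ _ _ h h' => h.trans h') (fun τ z w ht _ _ h => h.map τ ht)
  obtain ⟨hC, hB, hmul, hval, he, hBlt, hBun, hCun⟩ :=
    comp_norm hn hA.lt hA.unram hcomp hClt
  have hcls : ∀ {z w}, Sol A (δ RatFunc.X) z → Sm C z w → Sol A (δ RatFunc.X) w := by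
    intro z w hz hzw
    obtain ⟨s, hs, -, hs3⟩ := Amb.cls hn hcomp hCm hClt hL hz
    exact hs3 w ((hs w).2 hzw)
  obtain ⟨O, hO, ht⟩ := exists_O (δ := δ) c
  obtain ⟨r, hr, hrc⟩ := (near_count hn hA.monic hA.lt hL O hO ht).2 q hA.mem
  have hrne : r.Nonempty := by
    rw [← Finset.card_pos, hrc]
    exact A.one_le_e hn _
  obtain ⟨u, hu⟩ := hrne
  obtain ⟨hu1, hu2⟩ := (hr u).1 hu
  -- C.e q = l
  have hCe : C.e (some q) = l := by
    obtain ⟨s', hs', hs'c⟩ := near_class hA hcomp hCm hClt hL hu1 O hO hu2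
    have h1 : s' = r := by
      ext z
      rw [hs', hr]
      constructor
      · rintro ⟨h2, h3⟩
        exact ⟨hcls hu1 h2, h3⟩
      · rintro ⟨h2, h3⟩
        exact ⟨(hRC u z hu1 h2).1 (Rg.near O hO ht hu1 h2 hu2 h3), h3⟩
    rw [← hs'c, h1, hrc, hA.ram]
  have hC2 : 2 ≤ C.n := by
    have h1 := C.e_le hC (some q)
    rw [hCe] at h1
    exact hA.two.trans h1
  refine ⟨B, C, hA, hcomp, hCm, hClt, hC2, hCe, ?_, ?_, ?_⟩
  · intro z z' hz hzz'
    rw [← hδ] at hz
    have hz' := hcls hz hzz'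
    obtain ⟨τ, -, h2, h3⟩ := Rg.loc hA hL hz ((hRC z z' hz hz').2 hzz')
    refine ⟨τ, h2, fun w hw hzw => ?_⟩
    rw [← hδ] at hw
    exact h3 w hw fun h4 => hzw ((hRC z w hz hw).1 h4)
  · intro ψ P _ hA2 hP hP'
    obtain ⟨O', hO', ht1, hφq, hψq⟩ := exists_O_placeG hA hP hP'
    rw [← hδ] at ht1
    have h1 : Sol A (δ RatFunc.X) (algebraMap K (AlgebraicClosure K) (φ RatFunc.X)) := by
      rw [hδ]
      exact Build_coord hn φ
    have h2 : Sol A (δ RatFunc.X) (algebraMap K (AlgebraicClosure K) (ψ RatFunc.X)) := by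
      rw [hδ, hA2]
      exact Build_coord hn ψ
    exact Build_elt hC φ ψ ((hRC _ _ h1 h2).1 (Rg.near O' hO' ht1 h1 h2 hφq hψq))
  · obtain ⟨p, hp⟩ := val_finite hA hcomp hClt
    have hB1 : B.e (C.val (some q)) = 1 := by
      have h2 := he (some q)
      rw [hA.ram, hCe] at h2
      have h3 := hA.two
      exact (Nat.eq_of_mul_eq_mul_right (by omega : 0 < l) (by rw [one_mul]; exact h2)).symm
    have hcop : ∀ w, w ≠ some q → C.val w = some p →
        Nat.Coprime (C.e (some q)) (C.e w) := by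
      intro w hw hwp
      have h1 : A.val w = some c := by rw [hval w, hwp, ← hp, ← hval, hA.val]
      have h2 := hA.cop w hw h1
      rw [he w] at h2
      rw [hCe]
      exact Nat.Coprime.coprime_mul_left_right h2
    rcases ind_alt hC2 hCm hClt (BuildG_indec hA hcomp hCm hClt hL hRC) hp
      (by rw [hCe]; exact hA.two) hcop with h | h
    · exact Or.inl h
    · rcases prime_altS h hCm hClt hCun with h1 | h1
      · exact Or.inl h1
      · exact Or.inr ⟨h, h1⟩

end WildJ
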