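import Pool.Agent.helper21.SC.GDefs

/-! The cycle of length `e`. -/

namespace WildJ

open Polynomial WildRat WildS WildV WildH WildN

variable {L : Type} [Field L] [Algebra ℂ L]

/-- As `exists_lcyc` (HD/Cyc.lean). -/
theorem exists_ccyc {A : RF} {c q : ℂ} {l : ℕ} (hA : NormC A c q l) {δ : E →ₐ[ℂ] L} (hL : Amb δ)
    (O : ValuationSubring L) (hO : ∀ c : ℂ, algebraMap ℂ L c ∈ O) (ht : Near O (δ RatFunc.X) c) :
    ∃ g : L ≃ₐ[ℂ] L, g (δ RatFunc.X) = δ RatFunc.X ∧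
      (∀ z, Sol A (δ RatFunc.X) z → Near O z q → Near O (g z) q) ∧
      (∀ z, Sol A (δ RatFunc.X) z → ¬ Near O z q → g z = z) ∧
      ∀ z z', Sol A (δ RatFunc.X) z → Sol A (δ RatFunc.X) z' → Near O z q → Near O z' q →
        ∃ k : ℕ, (g ^ k) z = z' := by
  classical
  have hn : 1 ≤ A.n := by
    have h3 : A.n = max A.P.natDegree A.Q.natDegree := rfl
    have h4 := hA.lt
    omega
  obtain ⟨σ, hσt, hσn, hσtr⟩ := exists_sigma hn hA.monic hA.lt hL O hO ht
  obtain ⟨hnear, hcnt⟩ := near_count hn hA.monic hA.lt hL O hO ht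
  have hsol : ∀ z, Sol A (δ RatFunc.X) z → Sol A (δ RatFunc.X) (σ z) := fun z hz =>
    Sol.map hz σ hσt
  have hk : ∀ (k : ℕ) (z : L), Sol A (δ RatFunc.X) z → Sol A (δ RatFunc.X) ((⇑σ)^[k] z) ∧
      ∀ a, Near O z a → Near O ((⇑σ)^[k] z) a := by
    intro k
    induction k with
    | zero => exact fun z hz => ⟨hz, fun a ha => ha⟩
    | succ k ih =>
      intro z hz
      rw [Function.iterate_succ_apply']
      obtain ⟨h1, h2⟩ := ih z hz
      exact ⟨hsol _ h1, fun a ha => hσn _ h1 a (h2 a ha)⟩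
  have hcyc : ∀ a ∈ fC A c, ∀ z, Sol A (δ RatFunc.X) z → Near O z a →
      (⇑σ)^[A.e (some a)] z = z := by
    intro a ha z hz hza
    obtain ⟨S, hS, hSc⟩ := hcnt a ha
    rw [← hSc]
    refine Cyc_period _ S ?_ ?_ ((hS z).2 ⟨hz, hza⟩)
    · intro w hw
      rw [hS] at hw ⊢
      exact ⟨hsol w hw.1, hσn w hw.1 a hw.2⟩
    · intro w hw w' hw'
      rw [hS] at hw hw'
      obtain ⟨k, hk⟩ := hσtr w w' hw.1 hw'.1 a hw.2 hw'.2
      rw [Cyc_pow] at hk
      exact ⟨k, hk⟩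
  have hqf : q ∈ fC A c := hA.mem
  have hql : A.e (some q) = l := hA.ram
  set m : ℕ := ∏ a ∈ (fC A c).erase q, A.e (some a) with hm
  have hcop : m.Coprime l := by
    rw [hm]
    refine Nat.Coprime.prod_left fun a ha => ?_
    rw [Finset.mem_erase] at ha
    exact (hA.cop (some a) (fun h => ha.1 (Option.some.inj h)) ((mem_fC hn).1 ha.2)).symm
  refine ⟨σ ^ m, ?_, ?_, ?_, ?_⟩
  · rw [Cyc_pow]
    exact Function.iterate_fixed hσt m
  · intro z hz hzq
    rw [Cyc_pow]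
    exact (hk m z hz).2 q hzq
  · intro z hz hzq
    obtain ⟨a, hza, ha, -⟩ := hnear z hz
    have haq : a ≠ q := by
      rintro rfl
      exact hzq hza
    rw [Cyc_pow]
    exact Cyc_dvd (hcyc a ha z hz hza)
      (Finset.dvd_prod_of_mem (fun a => A.e (some a)) (Finset.mem_erase.2 ⟨haq, ha⟩))
  · intro z z' hz hz' hzq hzq'
    obtain ⟨k, hk'⟩ := hσtr z z' hz hz' q hzq hzq'
    obtain ⟨j, -, hj⟩ := Nat.exists_mul_mod_eq_one_of_coprime hcop (by have := hA.two; omega)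
    refine ⟨j * k, ?_⟩
    rw [← pow_mul, Cyc_pow]
    rw [Cyc_pow] at hk'
    rw [← hk']
    have hl : (⇑σ)^[l] z = z := by
      rw [← hql]
      exact hcyc q hqf z hz hzq
    refine Cyc_mod hl ?_
    rw [← mul_assoc, Nat.mul_mod, hj, one_mul, Nat.mod_mod]

end WildJ
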