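import Pool.Agent.helper21.HD.PrimeS

/-!
# Functions with an index coprime to the other indices of its fibre: definitions
(helper21, MP_11236d_an, stage 5)
-/

namespace WildJ

open Polynomial WildRat WildS WildV WildH WildN

/-- The index `e` at `z` is at least two and coprime to the other indices over the same value, and every
right factor of `A` of degree at least two which is totally ramified at `z` has degree `e`. -/
def LoneC (A : RF) (z : P1) : Prop :=
  2 ≤ A.e z ∧ (∀ w, w ≠ z → A.val w = A.val z → Nat.Coprime (A.e z) (A.e w)) ∧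
    ∀ B C : RF, A.IsComp B C → 2 ≤ C.n → C.e z = C.n → C.n = A.e z

/-- The same for a normalised function: `A(∞) = ∞`, infinity is not a critical value. -/
structure NormC (A : RF) (c q : ℂ) (e : ℕ) : Prop where
  two : 2 ≤ e
  monic : A.P.Monic
  lt : A.Q.natDegree < A.P.natDegree
  val : A.val (some q) = some c
  ram : A.e (some q) = e
  cop : ∀ w, w ≠ some q → A.val w = some c → Nat.Coprime e (A.e w)
  unram : ∀ z : P1, A.val z = none → A.e z = 1
  tot : ∀ B C : RF, A.IsComp B C → 2 ≤ C.n → C.e (some q) = C.n → C.n = e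

variable {K : Type} [Field K] [Algebra ℂ K]

/-- The class data, in the algebraic closure of a field `K` with the coordinate `φ`. -/
structure ClC (A B C : RF) (c q : ℂ) (e : ℕ) (φ : E →ₐ[ℂ] K) : Prop where
  norm : NormC A c q e
  comp : A.IsComp B C
  monic : C.P.Monic
  lt : C.Q.natDegree < C.P.natDegree
  two : 2 ≤ C.n
  eq : C.e (some q) = e
  loc : ∀ z z' : AlgebraicClosure K, Sol A (algebraMap K _ (φ (elt A))) z → Sm C z z' →
    ∃ τ : AlgebraicClosure K ≃ₐ[ℂ] AlgebraicClosure K, τ z = z' ∧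
      ∀ w, Sol A (algebraMap K _ (φ (elt A))) w → ¬ Sm C z w → τ w = w
  uniq : ∀ (ψ : E →ₐ[ℂ] K) (P : Pl K), φ ≠ ψ → φ (elt A) = ψ (elt A) → P ∈ fib φ q →
    P ∈ fib ψ q → φ (elt C) = ψ (elt C)
  alt : DTm C ∨ (C.n.Prime ∧ Aff C)

theorem NormC.one_le {A : RF} {c q : ℂ} {e : ℕ} (h : NormC A c q e) : 1 ≤ A.n := by
  have h1 := h.lt
  have h2 : A.P.natDegree ≤ A.n := le_max_left _ _
  omega

theorem NormC.mem {A : RF} {c q : ℂ} {e : ℕ} (h : NormC A c q e) : q ∈ fC A c :=
  (mem_fC h.one_le).2 h.val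

end WildJ
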