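import Pool.Agent.helper21.HD.NormalL
import Pool.Agent.helper21.SC.GDefs

/-! Normalisation of a rational function with an index coprime to the other indices of its fibre. -/

namespace WildJ

open Polynomial WildRat WildS WildV WildH WildN

/-- As `normaliseZ` (HD/NormalZ.lean). -/
theorem normaliseC (A : RF) (hn : 1 ≤ A.n) {p : P1} (hs : LoneC A p) :
    ∃ (A' : RF) (c' q' : ℂ), NormC A' c' q' (A.e p) ∧
      (∀ (K : Type) [Field K] [Algebra ℂ K] (φ ψ : E →ₐ[ℂ] K), φ ≠ ψ → φ (elt A) = ψ (elt A) →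
        ∃ φ' ψ' : E →ₐ[ℂ] K, φ' ≠ ψ' ∧ φ' (elt A') = ψ' (elt A')) ∧
      ∀ B' C' : RF, A'.IsComp B' C' → 1 ≤ C'.n → ∃ B C : RF, A.IsComp B C ∧ C.n = C'.n ∧
        ∃ σ : P1 → P1, Function.Bijective σ ∧ σ p = some q' ∧ (∀ z, C.val z = C'.val (σ z)) ∧
          ∀ z, C.e z = C'.e (σ z) := by
  have hn1 : 1 ≤ A.n := hn
  obtain ⟨z0, c0, hz0, hc0⟩ := Normal_exists_point A hn1
  obtain ⟨hSe, hSb, S', hS'n, hS'S, hSS', hSapp⟩ := moebius_facts (Normal_S z0) (Normal_S_n z0)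
  obtain ⟨hTe, hTb, T', hT'n, hT'T, hTT', hTapp⟩ := moebius_facts (Normal_T c0) (Normal_T_n c0)
  have hSn : 1 ≤ (Normal_S z0).n := by rw [Normal_S_n]
  have hTn : 1 ≤ (Normal_T c0).n := by rw [Normal_T_n]
  have hS'n1 : 1 ≤ S'.n := by rw [hS'n]
  have hT'n1 : 1 ≤ T'.n := by rw [hT'n]
  obtain ⟨A1, hA1, hA1n⟩ := exists_comp A (Normal_S z0) hn1 hSn
  obtain ⟨A2, hA2, hA2n⟩ := exists_comp (Normal_T c0) A1 hTn hA1n
  obtain ⟨A3, hA3, hmon, hA3n⟩ := Normal_monic A2 hA2n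
  obtain ⟨-, hn1', hv1, he1⟩ := comp_facts hA1 hA1n hSn
  obtain ⟨-, hn2', hv2, he2⟩ := comp_facts hA2 hA2n hA1n
  obtain ⟨hn3, hv3, he3⟩ := congr_elt hA3 hA3n hA2n
  have hval : ∀ z, A3.val z = (Normal_T c0).val (A.val ((Normal_S z0).val z)) := by
    intro z; rw [hv3, hv2, hv1]
  have he : ∀ z, A3.e z = A.e ((Normal_S z0).val z) := by
    intro z; rw [he3, he2, he1, hTe, hSe, one_mul, mul_one]
  have hnn : A3.n = A.n := by
    rw [hn3, hn2', hn1', Normal_S_n, Normal_T_n]; ring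
  have hlt : A3.Q.natDegree < A3.P.natDegree := by
    have h1 : A3.val none = none := by
      rw [hval, Normal_S_none, hz0, Normal_T_some]
    have h2 : A3.Q.coeff A3.n = 0 := by
      by_contra h3
      simp only [RF.val] at h1
      rw [if_neg h3] at h1
      exact absurd h1 (by simp)
    have hQ0 := A3.Q_ne_zero hA3n
    by_contra hcon
    push Not at hcon
    have h3 : A3.n = A3.Q.natDegree := max_eq_right hcon
    rw [h3, coeff_natDegree] at h2
    exact hQ0 (leadingCoeff_eq_zero.1 h2)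
  have hPn : A3.P.natDegree = A3.n := (max_eq_left hlt.le).symm
  obtain ⟨hl2, hpu, htot⟩ := hs
  obtain ⟨c, hpv⟩ : ∃ c, A.val p = c := ⟨_, rfl⟩
  rw [hpv] at hpu
  have hcne : c ≠ some c0 := by
    intro h
    have := hc0 p (by rw [hpv, h])
    omega
  have hTc : ∃ t : ℂ, (Normal_T c0).val c = some t := by
    apply Option.ne_none_iff_exists'.1
    rw [← Normal_T_some c0]
    intro h
    exact hcne (hTb.1 h)
  obtain ⟨c', hc'⟩ := hTc
  have hpne : p ≠ some z0 := by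
    intro h
    apply hcne
    rw [← hpv, h, hz0]
  have hSq : ∃ t : ℂ, S'.val p = some t := by
    apply Option.ne_none_iff_exists'.1
    intro h
    apply hpne
    rw [← hSS' p, h, Normal_S_none]
  obtain ⟨q', hq'⟩ := hSq
  have hSq' : (Normal_S z0).val (some q') = p := by
    rw [← hq', hSS']
  have hqv : A3.val (some q') = some c' := by
    rw [hval, hSq', hpv, hc']
  have hback : ∀ B' C' : RF, A3.IsComp B' C' → 1 ≤ C'.n → ∃ B C : RF, A.IsComp B C ∧ C.n = C'.n ∧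
        ∃ σ : P1 → P1, Function.Bijective σ ∧ σ p = some q' ∧ (∀ z, C.val z = C'.val (σ z)) ∧
          ∀ z, C.e z = C'.e (σ z) := by
    intro B' C' hcomp hC'n
    obtain ⟨hB'n, -, -, -⟩ := comp_facts hcomp hA3n hC'n
    obtain ⟨C1, hC1, hC1n⟩ := exists_comp C' S' hC'n hS'n1
    obtain ⟨B1, hB1, hB1n⟩ := exists_comp T' B' hT'n1 hB'n
    obtain ⟨-, hC1n', hC1v, hC1e⟩ := comp_facts hC1 hC1n hS'n1
    obtain ⟨hS'e, hS'b, -⟩ := moebius_facts S' hS'n
    refine ⟨B1, C1, ?_, ?_, S'.val, hS'b, hq', hC1v, ?_⟩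
    · show A.app (RatFunc.X : RatFunc ℂ) = B1.app (C1.app (RatFunc.X : RatFunc ℂ))
      have hX := ratFuncX_nonConst
      have hSX := S'.app_nonConst hS'n1 hX
      have hC1X := C1.app_nonConst hC1n hX
      have h1 : A3.app (S'.app (RatFunc.X : RatFunc ℂ)) =
          (Normal_T c0).app (A.app (RatFunc.X : RatFunc ℂ)) := by
        obtain ⟨σ, hσ⟩ := exists_subst hSX
        have h2 := congrArg σ hA3
        rw [coord_elt, coord_elt, hσ, hA2.app_eq hSX, hA1.app_eq hSX, (hSapp _ _ hX).1] at h2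
        exact h2
      have h3 : A.app (RatFunc.X : RatFunc ℂ) =
          T'.app (A3.app (S'.app (RatFunc.X : RatFunc ℂ))) := by
        rw [h1, (hTapp _ _ (A.app_nonConst hn1 hX)).2]
      rw [h3, hcomp.app_eq hSX, hB1.app_eq hC1X, hC1.app_eq hX]
    · rw [hC1n', hS'n, mul_one]
    · intro z
      rw [hC1e, hS'e, mul_one]
  refine ⟨A3, c', q', ⟨hl2, hmon, hlt, hqv, ?_, ?_, ?_, ?_⟩, ?_, hback⟩
  · rw [he, hSq']
  · intro w hw hvw
    rw [he]
    refine hpu _ ?_ ?_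
    · rw [← hSq']
      intro h
      exact hw (hSb.1 h)
    · apply hTb.1
      rw [← hval, hvw, hc']
  · intro z hz
    rw [he]
    apply hc0
    apply hTb.1
    rw [← hval, hz, Normal_T_some]
  · intro B' C' hcomp h2 hto
    obtain ⟨B, C, h3, h4, σ, -, h5, -, h6⟩ := hback B' C' hcomp (by omega)
    rw [← h4]
    refine htot B C h3 (by omega) ?_
    rw [h6, h5, hto, h4]
  · intro K _ _ φ ψ hne h
    have hφ := coord_nonConst φ
    have hψ := coord_nonConst ψ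
    obtain ⟨φ', hφ'⟩ := exists_subst (S'.app_nonConst hS'n1 hφ)
    obtain ⟨ψ', hψ'⟩ := exists_subst (S'.app_nonConst hS'n1 hψ)
    have hkey : ∀ (χ χ' : E →ₐ[ℂ] K), NonConst (χ RatFunc.X) →
        χ' RatFunc.X = S'.app (χ RatFunc.X) → χ' (elt A3) = (Normal_T c0).app (χ (elt A)) := by
      intro χ χ' hχ hχ'
      have hU : NonConst (S'.app (χ RatFunc.X)) := S'.app_nonConst hS'n1 hχ
      rw [hA3, coord_elt, coord_elt, hχ', hA2.app_eq hU, hA1.app_eq hU, (hSapp K _ hχ).1]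
    refine ⟨φ', ψ', ?_, ?_⟩
    · intro heq
      apply coord_ne hne
      rw [← (hSapp K _ hφ).1, ← (hSapp K _ hψ).1, ← hφ', ← hψ', heq]
    · rw [hkey φ φ' hφ hφ', hkey ψ ψ' hψ hψ', h]
end WildJ
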