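import Pool.Agent.helper21.HD.GcdL

/-! The combinatorial count over the value with a lone multiple of the prime `l`. -/

namespace WildJ

open WildV WildH

/-- The count over the value with the lone index.

Data as in `gcd_count` (WV/GcdK.lean); the prime `l` divides `eB p * x a` only for `p = p1`, `a = a1`, where
`eB p1 = 1`; `M p1 p1 = 0`.

Proof.  As `gcd_count`: `2 eB p ∑ N ≤ m M p p' (2 ∑∑ gcd (eB p x_a, eB p' x_b))`, where for
`p = p1`, `p' ≠ p1` we use `gcd_psd_gain` (`e = eB p1 = 1`): the gain is `(l - 1) eB p'`; for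
`p ≠ p1`, `p' = p1` the same with the two sides exchanged (`gcd` is symmetric): the gain is
`(l - 1) eB p` after division.  For `p = p' = p1` everything vanishes because `M = 0`.  Divide by `eB p`
and sum: the total gain in `2 ∑ N` is
`(l - 1) m (∑ p', M p1 p' eB p' + ∑ p, M p p1) = (l - 1) m (eB p1 d' + d') = 2 (l - 1) m d'`. -/
theorem gcd_count_loneG {ι α : Type} [DecidableEq ι] [DecidableEq α] (I : Finset ι) (eB : ι → ℕ)
    (X : ι → Finset α) (x : α → ℕ) (M : ι → ι → ℕ) (N : α → α → ℕ) {m d' l : ℕ} (hl : l.Prime)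
    (hB : ∀ p ∈ I, 1 ≤ eB p) (hx : ∀ p ∈ I, ∀ a ∈ X p, 1 ≤ x a) {p1 : ι} (hp1 : p1 ∈ I)
    (hB1 : eB p1 = 1) {a1 : α} (ha1 : a1 ∈ X p1) (hx1 : l ∣ x a1)
    (hlone : ∀ p ∈ I, ∀ a ∈ X p, ¬ (p = p1 ∧ a = a1) → ¬ l ∣ eB p * x a)
    (hN : ∀ p ∈ I, ∀ p' ∈ I, ∀ a ∈ X p, ∀ b ∈ X p',
      N a b * Nat.lcm (eB p * x a) (eB p' * x b) ≤ eB p' * x b * (m * (x a * M p p')))
    (hrow : ∀ p ∈ I, ∑ p' ∈ I, eB p' * M p p' = eB p * d')
    (hcol : ∀ p' ∈ I, ∑ p ∈ I, M p p' = d') (hM : M p1 p1 = 0) :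
    ∑ p ∈ I, ∑ p' ∈ I, ∑ a ∈ X p, ∑ b ∈ X p', N a b + (l - 1) * (m * d') ≤
      m * d' * ∑ p ∈ I, ∑ a ∈ X p, ∑ a' ∈ X p, Nat.gcd (x a) (x a') := by
  obtain ⟨g, hg⟩ : ∃ g : ι → ℕ, ∀ p, g p = ∑ a ∈ X p, ∑ a' ∈ X p, Nat.gcd (x a) (x a') :=
    ⟨_, fun _ => rfl⟩
  obtain ⟨S, hS⟩ : ∃ S : ι → ι → ℕ, ∀ p p', S p p' = ∑ a ∈ X p, ∑ b ∈ X p', N a b :=
    ⟨_, fun _ _ => rfl⟩
  obtain ⟨L, hL⟩ : ∃ L, L = l - 1 := ⟨_, rfl⟩
  -- the bound for one pair
  have h3 : ∀ p ∈ I, ∀ p' ∈ I, 2 * (eB p * S p p') ≤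
      m * M p p' * (2 * ∑ a ∈ X p, ∑ b ∈ X p', Nat.gcd (eB p * x a) (eB p' * x b)) := by
    intro p hp p' hp'
    have h2 : ∀ a ∈ X p, ∀ b ∈ X p', eB p * N a b ≤
        m * M p p' * Nat.gcd (eB p * x a) (eB p' * x b) := by
      intro a ha b hb
      have hxa := hx p hp a ha
      have hxb := hx p' hp' b hb
      have hpp := hB p hp
      have hpp' := hB p' hp'
      have h := hN p hp p' hp' a ha b hb
      have hgl : Nat.gcd (eB p * x a) (eB p' * x b) * Nat.lcm (eB p * x a) (eB p' * x b) =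
          (eB p * x a) * (eB p' * x b) := Nat.gcd_mul_lcm _ _
      refine Nat.le_of_mul_le_mul_left ?_ (Nat.mul_pos hxa (Nat.mul_pos hpp' hxb))
      calc x a * (eB p' * x b) * (eB p * N a b) = N a b * ((eB p * x a) * (eB p' * x b)) := by ring
        _ = (N a b * Nat.lcm (eB p * x a) (eB p' * x b)) *
            Nat.gcd (eB p * x a) (eB p' * x b) := by rw [← hgl]; ring
        _ ≤ (eB p' * x b * (m * (x a * M p p'))) * Nat.gcd (eB p * x a) (eB p' * x b) :=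
            Nat.mul_le_mul_right _ h
        _ = _ := by ring
    have h4 : eB p * S p p' ≤ m * M p p' * ∑ a ∈ X p, ∑ b ∈ X p',
        Nat.gcd (eB p * x a) (eB p' * x b) := by
      rw [hS]
      simp only [Finset.mul_sum]
      exact Finset.sum_le_sum fun a ha => Finset.sum_le_sum fun b hb => h2 a ha b hb
    calc 2 * (eB p * S p p') ≤ 2 * (m * M p p' * ∑ a ∈ X p, ∑ b ∈ X p',
          Nat.gcd (eB p * x a) (eB p' * x b)) := Nat.mul_le_mul_left _ h4
      _ = _ := by ring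
  have h1 : ∀ p ∈ I, ∀ p' ∈ I, 2 * (eB p * S p p') ≤
      m * M p p' * (eB p' * g p + eB p * g p') := by
    intro p hp p' hp'
    have h4 := WildV.gcd_psd (X p) (X p') x x (hB p hp) (hB p' hp') (hx p hp) (hx p' hp')
    rw [← hg, ← hg] at h4
    exact (h3 p hp p' hp').trans (Nat.mul_le_mul_left _ h4)
  have h1a : ∀ p' ∈ I, p' ≠ p1 → 2 * (eB p1 * S p1 p') + m * M p1 p' * (L * eB p') ≤
      m * M p1 p' * (eB p' * g p1 + eB p1 * g p') := by
    intro p' hp' hne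
    have h4 := gcd_psd_gain (X p1) (X p') x x (e := eB p1) (e' := eB p') hl (hB p1 hp1)
      (hB p' hp') (hx p1 hp1) (hx p' hp') ha1 (by rw [hB1, one_mul]; exact hx1)
      (fun a ha haa => hlone p1 hp1 a ha fun h => haa h.2)
      (fun b hb => hlone p' hp' b hb fun h => hne h.1)
    rw [← hg, ← hg, ← hL] at h4
    have h5 := h3 p1 hp1 p' hp'
    have h6 : 2 * (∑ a ∈ X p1, ∑ b ∈ X p', Nat.gcd (eB p1 * x a) (eB p' * x b)) + L * eB p' ≤
        eB p' * g p1 + eB p1 * g p' := by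
      have h7 := h4
      simp only [hB1, one_mul] at h7 ⊢
      exact h7
    calc 2 * (eB p1 * S p1 p') + m * M p1 p' * (L * eB p') ≤
          m * M p1 p' * (2 * ∑ a ∈ X p1, ∑ b ∈ X p', Nat.gcd (eB p1 * x a) (eB p' * x b)) +
            m * M p1 p' * (L * eB p') := Nat.add_le_add_right h5 _
      _ = m * M p1 p' * (2 * (∑ a ∈ X p1, ∑ b ∈ X p', Nat.gcd (eB p1 * x a) (eB p' * x b)) +
            L * eB p') := by ring
      _ ≤ _ := Nat.mul_le_mul_left _ h6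
  have h1b : ∀ p ∈ I, p ≠ p1 → 2 * (eB p * S p p1) + m * M p p1 * (L * eB p) ≤
      m * M p p1 * (eB p1 * g p + eB p * g p1) := by
    intro p hp hne
    have h4 := gcd_psd_gain (X p1) (X p) x x (e := eB p1) (e' := eB p) hl (hB p1 hp1)
      (hB p hp) (hx p1 hp1) (hx p hp) ha1 (by rw [hB1, one_mul]; exact hx1)
      (fun a ha haa => hlone p1 hp1 a ha fun h => haa h.2)
      (fun b hb => hlone p hp b hb fun h => hne h.1)
    rw [← hg, ← hg, ← hL] at h4
    have h5 := h3 p hp p1 hp1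
    have hsw : ∑ a ∈ X p, ∑ b ∈ X p1, Nat.gcd (eB p * x a) (eB p1 * x b) =
        ∑ b ∈ X p1, ∑ a ∈ X p, Nat.gcd (eB p1 * x b) (eB p * x a) := by
      rw [Finset.sum_comm]
      refine Finset.sum_congr rfl fun b _ => Finset.sum_congr rfl fun a _ => ?_
      exact Nat.gcd_comm _ _
    have h6 : 2 * (∑ a ∈ X p, ∑ b ∈ X p1, Nat.gcd (eB p * x a) (eB p1 * x b)) + L * eB p ≤
        eB p1 * g p + eB p * g p1 := by
      rw [hsw]
      have h7 := h4
      simp only [hB1, one_mul] at h7 ⊢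
      omega
    calc 2 * (eB p * S p p1) + m * M p p1 * (L * eB p) ≤
          m * M p p1 * (2 * ∑ a ∈ X p, ∑ b ∈ X p1, Nat.gcd (eB p * x a) (eB p1 * x b)) +
            m * M p p1 * (L * eB p) := Nat.add_le_add_right h5 _
      _ = m * M p p1 * (2 * (∑ a ∈ X p, ∑ b ∈ X p1, Nat.gcd (eB p * x a) (eB p1 * x b)) +
            L * eB p) := by ring
      _ ≤ _ := Nat.mul_le_mul_left _ h6
  -- divide by `eB p`
  have h5 : ∀ p ∈ I, ∀ p' ∈ I, (2 : ℚ) * (S p p' : ℚ) +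
      ((if p = p1 then (m * L : ℚ) * ((eB p' : ℚ) * (M p1 p' : ℚ)) else 0) +
        (if p' = p1 then (m * L : ℚ) * (M p p1 : ℚ) else 0)) ≤
      m * (g p : ℚ) / (eB p : ℚ) * ((eB p' : ℚ) * (M p p' : ℚ)) + m * (g p' : ℚ) * (M p p' : ℚ) := by
    intro p hp p' hp'
    have hpos : (0 : ℚ) < (eB p : ℚ) := by exact_mod_cast hB p hp
    have e1 : m * (g p : ℚ) / (eB p : ℚ) * ((eB p' : ℚ) * (M p p' : ℚ)) +
        m * (g p' : ℚ) * (M p p' : ℚ) = ((m : ℚ) * (M p p' : ℚ) * ((eB p' : ℚ) * (g p : ℚ) +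
          (eB p : ℚ) * (g p' : ℚ))) / (eB p : ℚ) := by
      field_simp
    rw [e1, le_div_iff₀ hpos]
    by_cases hpp : p = p1
    · by_cases hpp' : p' = p1
      · subst hpp
        subst hpp'
        have h := h1 p' hp' p' hp'
        rw [hM, mul_zero, zero_mul] at h
        have h' : (2 : ℚ) * ((eB p' : ℚ) * (S p' p' : ℚ)) ≤ 0 := by exact_mod_cast h
        simp only [if_true, hM, Nat.cast_zero, mul_zero, zero_mul, add_zero]
        linarith
      · subst hpp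
        rw [if_pos rfl, if_neg hpp', add_zero]
        have h := h1a p' hp' hpp'
        have h' : (2 : ℚ) * ((eB p : ℚ) * (S p p' : ℚ)) +
            (m : ℚ) * (M p p' : ℚ) * ((L : ℚ) * (eB p' : ℚ)) ≤
            (m : ℚ) * (M p p' : ℚ) * ((eB p' : ℚ) * (g p : ℚ) + (eB p : ℚ) * (g p' : ℚ)) := by
          exact_mod_cast h
        have hb1 : (eB p : ℚ) = 1 := by exact_mod_cast hB1
        rw [hb1] at h' ⊢
        linarith
    · by_cases hpp' : p' = p1
      · subst hpp'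
        rw [if_neg hpp, if_pos rfl, zero_add]
        have h := h1b p hp hpp
        have h' : (2 : ℚ) * ((eB p : ℚ) * (S p p' : ℚ)) +
            (m : ℚ) * (M p p' : ℚ) * ((L : ℚ) * (eB p : ℚ)) ≤
            (m : ℚ) * (M p p' : ℚ) * ((eB p' : ℚ) * (g p : ℚ) + (eB p : ℚ) * (g p' : ℚ)) := by
          exact_mod_cast h
        linarith
      · rw [if_neg hpp, if_neg hpp', add_zero, add_zero]
        have h := h1 p hp p' hp'
        have h' : (2 : ℚ) * ((eB p : ℚ) * (S p p' : ℚ)) ≤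
            (m : ℚ) * (M p p' : ℚ) * ((eB p' : ℚ) * (g p : ℚ) + (eB p : ℚ) * (g p' : ℚ)) := by
          exact_mod_cast h
        linarith
  have h6 : ∑ p ∈ I, ∑ p' ∈ I, ((2 : ℚ) * (S p p' : ℚ) +
      ((if p = p1 then (m * L : ℚ) * ((eB p' : ℚ) * (M p1 p' : ℚ)) else 0) +
        (if p' = p1 then (m * L : ℚ) * (M p p1 : ℚ) else 0))) ≤
      ∑ p ∈ I, ∑ p' ∈ I, (m * (g p : ℚ) / (eB p : ℚ) * ((eB p' : ℚ) * (M p p' : ℚ)) +
        m * (g p' : ℚ) * (M p p' : ℚ)) :=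
    Finset.sum_le_sum fun p hp => Finset.sum_le_sum fun p' hp' => h5 p hp p' hp'
  have h7 : ∑ p ∈ I, ∑ p' ∈ I, (m * (g p : ℚ) / (eB p : ℚ) * ((eB p' : ℚ) * (M p p' : ℚ)) +
        m * (g p' : ℚ) * (M p p' : ℚ)) = 2 * (m * d' * ∑ p ∈ I, (g p : ℚ)) := by
    simp only [Finset.sum_add_distrib]
    have e1 : ∑ p ∈ I, ∑ p' ∈ I, m * (g p : ℚ) / (eB p : ℚ) * ((eB p' : ℚ) * (M p p' : ℚ)) =
        m * d' * ∑ p ∈ I, (g p : ℚ) := by
      rw [Finset.mul_sum]
      refine Finset.sum_congr rfl fun p hp => ?_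
      rw [← Finset.mul_sum]
      have hpos : (eB p : ℚ) ≠ 0 := by
        have := hB p hp
        have : (eB p) ≠ 0 := by omega
        exact_mod_cast this
      have hr : ∑ p' ∈ I, (eB p' : ℚ) * (M p p' : ℚ) = (eB p : ℚ) * d' := by
        exact_mod_cast hrow p hp
      rw [hr]
      field_simp
    have e2 : ∑ p ∈ I, ∑ p' ∈ I, m * (g p' : ℚ) * (M p p' : ℚ) =
        m * d' * ∑ p ∈ I, (g p : ℚ) := by
      rw [Finset.sum_comm, Finset.mul_sum]
      refine Finset.sum_congr rfl fun p' hp' => ?_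
      rw [← Finset.mul_sum]
      have hr : ∑ p ∈ I, (M p p' : ℚ) = d' := by exact_mod_cast hcol p' hp'
      rw [hr]
      ring
    rw [e1, e2]
    ring
  have h8 : ∑ p ∈ I, ∑ p' ∈ I, ((2 : ℚ) * (S p p' : ℚ) +
      ((if p = p1 then (m * L : ℚ) * ((eB p' : ℚ) * (M p1 p' : ℚ)) else 0) +
        (if p' = p1 then (m * L : ℚ) * (M p p1 : ℚ) else 0))) =
      2 * (∑ p ∈ I, ∑ p' ∈ I, (S p p' : ℚ)) + 2 * (L * (m * d')) := by
    have e3 : ∑ p ∈ I, ∑ p' ∈ I,
        (if p = p1 then (m * L : ℚ) * ((eB p' : ℚ) * (M p1 p' : ℚ)) else 0) = m * L * d' := by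
      have e4 : ∀ p ∈ I, ∑ p' ∈ I,
          (if p = p1 then (m * L : ℚ) * ((eB p' : ℚ) * (M p1 p' : ℚ)) else 0) =
          if p = p1 then (m * L * d' : ℚ) else 0 := by
        intro p _
        by_cases h : p = p1
        · simp only [if_pos h]
          rw [← Finset.mul_sum]
          have hr : ∑ p' ∈ I, (eB p' : ℚ) * (M p1 p' : ℚ) = d' := by
            have := hrow p1 hp1
            rw [hB1, one_mul] at this
            exact_mod_cast this
          rw [hr]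
        · simp only [if_neg h, Finset.sum_const_zero]
      rw [Finset.sum_congr rfl e4, Finset.sum_ite_eq' I p1, if_pos hp1]
    have e5 : ∑ p ∈ I, ∑ p' ∈ I, (if p' = p1 then (m * L : ℚ) * (M p p1 : ℚ) else 0) =
        m * L * d' := by
      have e6 : ∀ p ∈ I, ∑ p' ∈ I, (if p' = p1 then (m * L : ℚ) * (M p p1 : ℚ) else 0) =
          (m * L : ℚ) * (M p p1 : ℚ) := by
        intro p _
        rw [Finset.sum_ite_eq' I p1, if_pos hp1]
      rw [Finset.sum_congr rfl e6, ← Finset.mul_sum]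
      have hr : ∑ p ∈ I, (M p p1 : ℚ) = d' := by exact_mod_cast hcol p1 hp1
      rw [hr]
    simp only [Finset.sum_add_distrib]
    rw [e3, e5]
    have e7 : ∑ p ∈ I, ∑ p' ∈ I, (2 : ℚ) * (S p p' : ℚ) =
        2 * ∑ p ∈ I, ∑ p' ∈ I, (S p p' : ℚ) := by
      simp only [Finset.mul_sum]
    rw [e7]
    ring
  have h9 : (∑ p ∈ I, ∑ p' ∈ I, (S p p' : ℚ)) + L * (m * d') ≤
      m * d' * ∑ p ∈ I, (g p : ℚ) := by
    rw [h7, h8] at h6
    linarith
  have h10 : (∑ p ∈ I, ∑ p' ∈ I, S p p') + L * (m * d') ≤ m * d' * ∑ p ∈ I, g p := by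
    exact_mod_cast h9
  simpa only [hS, hg, hL] using h10

end WildJ
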