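import Pool.Agent.helper21.NI.FinalE
import Pool.Agent.helper21.SC.BuildG
import Pool.Agent.helper21.SC.NormG
import Pool.Agent.helper21.SC.WTwoG

/-! Explicit classification for functions with an index coprime to the other indices of its fibre
(helper21, MP_11236d_an, stage 5). -/

namespace WildJ

open Polynomial WildRat WildS WildV WildH WildN

variable {K : Type} [Field K] [Algebra ℂ K]

/-- The explicit list. -/
def Ty (C : RF) : Prop := TyJ C ∨ TyZ C ∨ TyT C ∨ TyL C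

theorem Ty.TW {C : RF} (h2 : 2 ≤ C.n) (h : TyZ C ∨ TyT C ∨ TyL C) : WildH.TW C := by
  rcases h with h | h | h
  · exact TW_of_Z h2 h
  · exact TW_of_T h2 h
  · exact TW_of_L h2 h

theorem loneC_norm (hK : Good K) {A : RF} {c q : ℂ} {l : ℕ} (hA : NormC A c q l)
    {φ ψ : E →ₐ[ℂ] K} (hne : φ ≠ ψ) (h : φ (elt A) = ψ (elt A)) :
    ∃ B C : RF, A.IsComp B C ∧ 2 ≤ C.n ∧ C.e (some q) = l ∧ TW C ∧ Ty C := by
  obtain ⟨B, C, hCl⟩ := exists_ClC hA (hK.fin φ)
  obtain ⟨-, -, -, -, -, -, -, hun⟩ := comp_norm hA.one_le hA.lt hA.unram hCl.comp hCl.lt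
  refine ⟨B, C, hCl.comp, hCl.two, hCl.eq, ?_⟩
  rcases hCl.alt with h2 | ⟨-, h2⟩
  · have hTW : TW C := by
      refine TW_of_TWf (le_trans (by norm_num) hCl.two) hCl.lt hun ?_
      by_cases h1 : φ (elt C) = ψ (elt C)
      · obtain ⟨mu0, hirr, hmon, hgg⟩ := h2
        exact fun T => W_one hK hCl.two hCl.lt hun hirr hmon hgg hne h1 T
      · exact W_twoG hK hCl h h1
    exact ⟨hTW, Or.inl (irr_typesJ hCl.two (DT_of_DTm h2) hTW)⟩
  · have h3 := aff_types hCl.two h2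
    exact ⟨Ty.TW hCl.two h3, Or.inr h3⟩

theorem Eqv.ty {C C' : RF} (hn1 : 1 ≤ C.n) {σ T : P1 → P1} (h : Eqv C C' σ T)
    (h' : Ty C') : Ty C := by
  rcases h' with h1 | h1 | h1 | h1
  · exact Or.inl (h.tyJ hn1 h1)
  · exact Or.inr (Or.inl (h.tyZ hn1 h1))
  · exact Or.inr (Or.inr (Or.inl (h.tyT hn1 h1)))
  · exact Or.inr (Or.inr (Or.inr (h.tyL hn1 h1)))

theorem loneC_good (hK : Good K) (A : RF) (hn : 1 ≤ A.n) {z : P1} (hs : LoneC A z)
    (hsol : A.SolIn K) :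
    ∃ B C : RF, A.IsComp B C ∧ 2 ≤ C.n ∧ C.e z = A.e z ∧ TW C ∧ Ty C := by
  obtain ⟨U, V, hU, hUV, hE⟩ := hsol
  have hV : NonConst V := RF.Eqn.nonConst hn hU hE
  obtain ⟨φ, hφ⟩ := exists_subst hU
  obtain ⟨ψ, hψ⟩ := exists_subst hV
  have hne : φ ≠ ψ := by
    rintro rfl
    exact hUV (hφ.symm.trans hψ)
  have h : φ (elt A) = ψ (elt A) := by
    rw [coord_elt, coord_elt, hφ, hψ]
    exact RF.Eqn.app_eq hn hU hE
  obtain ⟨A', c', q', hA', htr, hback⟩ := normaliseC A hn hs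
  obtain ⟨φ', ψ', hne', h'⟩ := htr K φ ψ hne h
  obtain ⟨B', C', hcomp', h2', hq, htw, hty⟩ := loneC_norm hK hA' hne' h'
  obtain ⟨B, C, hcomp, hCn, σ, hσ, hσz, hv, he⟩ := hback B' C' hcomp' (by omega)
  have hE : Eqv C C' σ id := Eqv.of_source hCn hσ hv he
  exact ⟨B, C, hcomp, by omega, by rw [he, hσz, hq],
    TW_transport (by omega) hCn hσ hv he htw, Eqv.ty (by omega) hE hty⟩

/-- **Functions with an index coprime to the other indices of its fibre.** -/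
theorem loneC_explicit (A : RF) (hn : 1 ≤ A.n) {z : P1} (hs : LoneC A z) (hw : A.Wild) :
    ∃ B C : RF, A.IsComp B C ∧ 2 ≤ C.n ∧ C.e z = A.e z ∧ TW C ∧ Ty C := by
  rcases hw with hr | ⟨f, hf3, hsq, hsol⟩
  · exact loneC_good good_E A hn hs hr
  · have := kf_fact f (by rw [hf3]; decide)
    exact loneC_good (good_KF f hf3 hsq) A hn hs hsol

end WildJ
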