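import Pool.Agent.helper21.SC.NormI
import Pool.Agent.helper21.NI.FinalE

/-! Explicit classification for indecomposable functions with an index coprime to the others
(helper21, MP_11236d_an, stage 5). -/

namespace WildJ

open Polynomial WildRat WildS WildV WildH WildN

variable {K : Type} [Field K] [Algebra ℂ K]

theorem ind_good (hK : Good K) (A : RF) (hn : 2 ≤ A.n) (hind : Indec A) {z : P1}
    (hz : 2 ≤ A.e z)
    (hcop : ∀ w, w ≠ z → A.val w = A.val z → Nat.Coprime (A.e z) (A.e w))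
    (hp : ¬ A.n.Prime) (hsol : A.SolIn K) : TyJ A ∧ TW A := by
  obtain ⟨U, V, hU, hUV, hE⟩ := hsol
  have hn1 : 1 ≤ A.n := by omega
  have hV : NonConst V := RF.Eqn.nonConst hn1 hU hE
  obtain ⟨φ, hφ⟩ := exists_subst hU
  obtain ⟨ψ, hψ⟩ := exists_subst hV
  have hne : φ ≠ ψ := by
    rintro rfl
    exact hUV (hφ.symm.trans hψ)
  have h : φ (elt A) = ψ (elt A) := by
    rw [coord_elt, coord_elt, hφ, hψ]
    exact RF.Eqn.app_eq hn1 hU hE
  obtain ⟨A', hm, hlt, hun, hn', htr, hind', σ, T, hEq⟩ := normaliseI A hn1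
  obtain ⟨φ', ψ', hne', h'⟩ := htr K φ ψ hne h
  have hn2 : 2 ≤ A'.n := by omega
  -- the point of A'
  have hez : 2 ≤ A'.e (σ z) := by rw [hEq.e]; exact hz
  have hfin : ∃ c' q' : ℂ, σ z = some q' ∧ A'.val (some q') = some c' := by
    cases hv : A'.val (σ z) with
    | none =>
      have := hun _ hv
      omega
    | some c' =>
      cases hs : σ z with
      | none =>
        rw [hs, Quad_val_none A' hlt] at hv
        exact absurd hv (by simp)
      | some q' => exact ⟨c', q', rfl, by rw [← hs, hv]⟩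
  obtain ⟨c', q', hq', hv'⟩ := hfin
  rw [hq'] at hez
  have hcop' : ∀ w, w ≠ some q' → A'.val w = some c' →
      Nat.Coprime (A'.e (some q')) (A'.e w) := by
    intro w hw hvw
    obtain ⟨w0, rfl⟩ := hEq.src.2 w
    rw [← hq', hEq.e, hEq.e]
    refine hcop w0 (fun h0 => hw (by rw [h0, hq'])) ?_
    apply hEq.tgt.1
    rw [← hEq.val, ← hEq.val, hvw, hq', hv']
  rcases ind_alt hn2 hm hlt (hind' hind).norm hv' hez hcop' with h1 | h1
  · have h2 : TW A' := by
      obtain ⟨mu0, hirr, hmon, hgg⟩ := h1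
      exact TW_of_TWf (by omega) hlt hun
        (fun T => W_one hK hn2 hlt hun hirr hmon hgg hne' h' T)
    refine ⟨hEq.tyJ hn1 (irr_typesJ hn2 (DT_of_DTm h1) h2), ?_⟩
    exact hEq.TW hn1 h2
  · rw [hn'] at h1
    exact absurd h1 hp

/-- **Indecomposable functions.** -/
theorem ind_explicit (A : RF) (hn : 2 ≤ A.n) (hind : Indec A) {z : P1} (hz : 2 ≤ A.e z)
    (hcop : ∀ w, w ≠ z → A.val w = A.val z → Nat.Coprime (A.e z) (A.e w)) (hw : A.Wild) :
    (TyJ A ∨ TyZ A ∨ TyT A ∨ TyL A) ∧ TW A := by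
  by_cases hp : A.n.Prime
  · exact ⟨prime_explicit A hp hw, hard_prime A hp hw⟩
  rcases hw with hr | ⟨f, hf3, hsq, hsol⟩
  · obtain ⟨h1, h2⟩ := ind_good good_E A hn hind hz hcop hp hr
    exact ⟨Or.inl h1, h2⟩
  · have := kf_fact f (by rw [hf3]; decide)
    obtain ⟨h1, h2⟩ := ind_good (good_KF f hf3 hsq) A hn hind hz hcop hp hsol
    exact ⟨Or.inl h1, h2⟩

end WildJ
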