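import Pool.Agent.helper21.HD.NormE
import Pool.Agent.helper21.SC.Ind

/-! Normalisation, with the transport of decompositions (MP_11236d_an, stage 5). -/

namespace WildJ

open Polynomial WildRat WildS WildV WildH WildN

/-- As `normaliseE` (HD/NormE.lean), and a decomposition of `A'` gives a decomposition of `A` with the same
degrees.

Proof.  Copy the proof of `normaliseE`; the last part as in `normaliseL` (HD/NormalL.lean, the part
`intro B' C' hcomp hC'n`), with `C1.n = C'.n` and `B1.n = B'.n` (`comp_facts`, Moebius maps have degree one). -/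
theorem normaliseI (A : RF) (hn : 1 ≤ A.n) : ∃ A' : RF, A'.P.Monic ∧
    A'.Q.natDegree < A'.P.natDegree ∧ (∀ z, A'.val z = none → A'.e z = 1) ∧ A'.n = A.n ∧
      (∀ (K : Type) [Field K] [Algebra ℂ K] (φ ψ : E →ₐ[ℂ] K), φ ≠ ψ → φ (elt A) = ψ (elt A) →
        ∃ φ' ψ' : E →ₐ[ℂ] K, φ' ≠ ψ' ∧ φ' (elt A') = ψ' (elt A')) ∧
      (Indec A → Indec A') ∧ ∃ σ T : P1 → P1, Eqv A A' σ T := by
  classical
  obtain ⟨z0, c0, hz0, hc0⟩ := Normal_exists_point A hn
  obtain ⟨hSe, hSb, S', hS'n, hS'S, hSS', hSapp⟩ := moebius_facts (Normal_S z0) (Normal_S_n z0)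
  obtain ⟨hTe, hTb, T', hT'n, hT'T, hTT', hTapp⟩ := moebius_facts (Normal_T c0) (Normal_T_n c0)
  have hSn : 1 ≤ (Normal_S z0).n := by rw [Normal_S_n]
  have hTn : 1 ≤ (Normal_T c0).n := by rw [Normal_T_n]
  have hS'n1 : 1 ≤ S'.n := by rw [hS'n]
  have hT'n1 : 1 ≤ T'.n := by rw [hT'n]
  obtain ⟨A1, hA1, hA1n⟩ := exists_comp A (Normal_S z0) hn hSn
  obtain ⟨A2, hA2, hA2n⟩ := exists_comp (Normal_T c0) A1 hTn hA1n
  obtain ⟨A3, hA3, hmon, hA3n⟩ := Normal_monic A2 hA2n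
  obtain ⟨-, hn1', hv1, he1⟩ := comp_facts hA1 hA1n hSn
  obtain ⟨-, hn2', hv2, he2⟩ := comp_facts hA2 hA2n hA1n
  obtain ⟨hn3, hv3, he3⟩ := congr_elt hA3 hA3n hA2n
  have hval : ∀ z, A3.val z = (Normal_T c0).val (A.val ((Normal_S z0).val z)) := by
    intro z; rw [hv3, hv2, hv1]
  have he : ∀ z, A3.e z = A.e ((Normal_S z0).val z) := by
    intro z; rw [he3, he2, he1, hTe, hSe, one_mul, mul_one]
  have hnn : A3.n = A.n := by
    rw [hn3, hn2', hn1', Normal_S_n, Normal_T_n]; ring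
  have hlt : A3.Q.natDegree < A3.P.natDegree := by
    have h1 : A3.val none = none := by
      rw [hval, Normal_S_none, hz0, Normal_T_some]
    have h2 : A3.Q.coeff A3.n = 0 := by
      by_contra h3
      simp only [RF.val] at h1
      rw [if_neg h3] at h1
      exact absurd h1 (by simp)
    have hQ0 := A3.Q_ne_zero hA3n
    by_contra hcon
    push Not at hcon
    have h3 : A3.n = A3.Q.natDegree := max_eq_right hcon
    rw [h3, coeff_natDegree] at h2
    exact hQ0 (leadingCoeff_eq_zero.1 h2)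
  refine ⟨A3, hmon, hlt, ?_, hnn, ?_, ?_, S'.val, (Normal_T c0).val, hnn.symm, ?_, hTb, ?_, ?_⟩
  · intro z hz
    rw [he]
    apply hc0
    apply hTb.1
    rw [← hval, hz, Normal_T_some]
  · intro K _ _ φ ψ hne h
    have hφ := coord_nonConst φ
    have hψ := coord_nonConst ψ
    obtain ⟨φ', hφ'⟩ := exists_subst (S'.app_nonConst hS'n1 hφ)
    obtain ⟨ψ', hψ'⟩ := exists_subst (S'.app_nonConst hS'n1 hψ)
    have hkey : ∀ (χ χ' : E →ₐ[ℂ] K), NonConst (χ RatFunc.X) →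
        χ' RatFunc.X = S'.app (χ RatFunc.X) → χ' (elt A3) = (Normal_T c0).app (χ (elt A)) := by
      intro χ χ' hχ hχ'
      have hU : NonConst (S'.app (χ RatFunc.X)) := S'.app_nonConst hS'n1 hχ
      rw [hA3, coord_elt, coord_elt, hχ', hA2.app_eq hU, hA1.app_eq hU, (hSapp K _ hχ).1]
    refine ⟨φ', ψ', ?_, ?_⟩
    · intro heq
      apply coord_ne hne
      rw [← (hSapp K _ hφ).1, ← (hSapp K _ hψ).1, ← hφ', ← hψ', heq]
    · rw [hkey φ φ' hφ hφ', hkey ψ ψ' hψ hψ', h]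
  · intro hind B' C' hcomp hC'n
    obtain ⟨hB'n, -, -, -⟩ := comp_facts hcomp hA3n hC'n
    obtain ⟨C1, hC1, hC1n⟩ := exists_comp C' S' hC'n hS'n1
    obtain ⟨B1, hB1, hB1n⟩ := exists_comp T' B' hT'n1 hB'n
    obtain ⟨-, hC1n', -, -⟩ := comp_facts hC1 hC1n hS'n1
    obtain ⟨-, hB1n', -, -⟩ := comp_facts hB1 hB1n hB'n
    have hcomp1 : A.IsComp B1 C1 := by
      show A.app (RatFunc.X : RatFunc ℂ) = B1.app (C1.app (RatFunc.X : RatFunc ℂ))
      have hX := ratFuncX_nonConst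
      have hSX := S'.app_nonConst hS'n1 hX
      have hC1X := C1.app_nonConst hC1n hX
      have h1 : A3.app (S'.app (RatFunc.X : RatFunc ℂ)) =
          (Normal_T c0).app (A.app (RatFunc.X : RatFunc ℂ)) := by
        obtain ⟨σ, hσ⟩ := exists_subst hSX
        have h2 := congrArg σ hA3
        rw [coord_elt, coord_elt, hσ, hA2.app_eq hSX, hA1.app_eq hSX, (hSapp _ _ hX).1] at h2
        exact h2
      have h3 : A.app (RatFunc.X : RatFunc ℂ) =
          T'.app (A3.app (S'.app (RatFunc.X : RatFunc ℂ))) := by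
        rw [h1, (hTapp _ _ (A.app_nonConst hn hX)).2]
      rw [h3, hcomp.app_eq hSX, hB1.app_eq hC1X, hC1.app_eq hX]
    rw [hS'n, mul_one] at hC1n'
    rw [hT'n, one_mul] at hB1n'
    have h := hind B1 C1 hcomp1 hC1n
    rwa [hC1n', hB1n'] at h
  · exact (moebius_facts S' hS'n).2.1
  · intro z
    rw [hval, hSS']
  · intro z
    rw [he, hSS']

end WildJ
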