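import Pool.Agent.helper21.SC.SchurA

/-!
# The theorem of Schur on regular cyclic subgroups, the counting argument (MP_11236d_an, stage 5)

Proofs: helper51.
-/

namespace WildJ

open Equiv

variable {n : ℕ} [NeZero n]

/-- The subgroup of order `p`: the kernel of the multiplication by `p`. -/
def PP (n p : ℕ) [NeZero n] : Finset (ZMod n) := Finset.univ.filter fun z => (p : ZMod n) * z = 0

/-- Proof.  `p ∣ n`, `n = p m`: `p z = 0` iff `z` is a multiple of `m`. -/
theorem card_PP {p : ℕ} (hp : p.Prime) (hpn : p ∣ n) : (PP n p).card = p := by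
  obtain ⟨m, rfl⟩ := hpn
  have hn0 : p * m ≠ 0 := NeZero.ne _
  have hm : 0 < m := Nat.pos_of_ne_zero (right_ne_zero_of_mul hn0)
  have himg : PP (p * m) p = (Finset.range p).image (fun i => ((i * m : ℕ) : ZMod (p * m))) := by
    ext z
    simp only [PP, Finset.mem_filter, Finset.mem_univ, true_and, Finset.mem_image,
      Finset.mem_range]
    constructor
    · intro h
      have h1 : ((p * z.val : ℕ) : ZMod (p * m)) = 0 := by
        rw [Nat.cast_mul, ZMod.natCast_zmod_val]
        exact h
      rw [ZMod.natCast_eq_zero_iff] at h1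
      obtain ⟨i, hi⟩ := Nat.dvd_of_mul_dvd_mul_left hp.pos h1
      refine ⟨i, ?_, ?_⟩
      · have h2 := ZMod.val_lt z
        rw [hi, mul_comm p m] at h2
        exact Nat.lt_of_mul_lt_mul_left h2
      · rw [mul_comm i m, ← hi, ZMod.natCast_zmod_val]
    · rintro ⟨i, -, rfl⟩
      rw [← Nat.cast_mul, ZMod.natCast_eq_zero_iff]
      exact ⟨i, by ring⟩
  rw [himg, Finset.card_image_of_injOn, Finset.card_range]
  intro i hi j hj hij
  rw [Finset.mem_coe, Finset.mem_range] at hi hj
  simp only [ZMod.natCast_eq_natCast_iff'] at hij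
  rw [Nat.mod_eq_of_lt (Nat.mul_lt_mul_of_pos_right hi hm),
    Nat.mod_eq_of_lt (Nat.mul_lt_mul_of_pos_right hj hm)] at hij
  exact Nat.eq_of_mul_eq_mul_right hm hij

/-- The fibres of the multiplication by `p` are the cosets of `PP`; nonempty ones have `p` elements. -/
theorem card_fibre {p : ℕ} (hp : p.Prime) (hpn : p ∣ n) (t : ZMod n) :
    (Finset.univ.filter fun z : ZMod n => (p : ZMod n) * z = (p : ZMod n) * t).card = p := by
  refine Eq.trans ?_ (card_PP hp hpn)
  rw [← Finset.card_image_of_injective (PP n p) (add_right_injective t)]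
  congr 1
  ext z
  simp only [PP, Finset.mem_filter, Finset.mem_univ, true_and, Finset.mem_image]
  constructor
  · intro h
    exact ⟨z - t, by rw [mul_sub, h, sub_self], by ring⟩
  · rintro ⟨k, hk, rfl⟩
    rw [mul_add, hk, add_zero]

/-- **Cosets.**  If `t` lies in the invariant set `T` and `p t ≠ 0`, then the coset `t + PP` is contained
in `T`.

Proof.  `GS.frob` gives an invariant set which is contained in the set of the multiples of `p`, a proper
subgroup (`n` is divisible by `p`, so `1` is not a multiple of `p`: `p x = 1` would make `p` a unit in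
`ZMod n`), so by `GS.gen` it is contained in `{0}`: the number of the `t' ∈ T` with `p t' = p t` is
divisible by `p`.  It is at least one and at most `p` (`card_fibre`), so it is `p`: the whole fibre is
contained in `T`. -/
theorem coset_mem {G : Subgroup (Perm (ZMod n))} (hG : Prim G) {T : Finset (ZMod n)} (h : GS G T)
    {p : ℕ} (hp : p.Prime) (hpn : p ∣ n) {t : ZMod n} (ht : t ∈ T) (hpt : (p : ZMod n) * t ≠ 0)
    {k : ZMod n} (hk : k ∈ PP n p) : t + k ∈ T := by
  set F : Finset (ZMod n) :=
    Finset.univ.filter fun d => ¬ p ∣ (T.filter fun t => (p : ZMod n) * t = d).card with hF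
  have hGF : GS G F := h.frob hp
  have hK : (AddMonoidHom.mulLeft (p : ZMod n)).range ≠ ⊤ := by
    intro htop
    have h1 : (1 : ZMod n) ∈ (AddMonoidHom.mulLeft (p : ZMod n)).range := by
      rw [htop]; exact AddSubgroup.mem_top _
    obtain ⟨x, hx⟩ := h1
    have hx' : (p : ZMod n) * x = 1 := hx
    have h2 : IsUnit (p : ZMod n) := IsUnit.of_mul_eq_one _ hx'
    rw [ZMod.isUnit_iff_coprime] at h2
    have h3 : p ∣ Nat.gcd p n := Nat.dvd_gcd dvd_rfl hpn
    rw [Nat.Coprime] at h2
    rw [h2] at h3
    exact hp.one_lt.ne' (Nat.dvd_one.1 h3)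
  have hsub : ∀ d ∈ F, d ∈ (AddMonoidHom.mulLeft (p : ZMod n)).range := by
    intro d hd
    rw [hF, Finset.mem_filter] at hd
    have h1 : (T.filter fun t => (p : ZMod n) * t = d).Nonempty := by
      rw [Finset.nonempty_iff_ne_empty]
      intro h0
      rw [h0] at hd
      exact hd.2 (by simp)
    obtain ⟨s, hs⟩ := h1
    exact ⟨s, (Finset.mem_filter.1 hs).2⟩
  have h0 := GS.gen hG hGF hK hsub
  have hnF : (p : ZMod n) * t ∉ F := fun hmem => hpt (h0 _ hmem)
  have hdvd : p ∣ (T.filter fun s => (p : ZMod n) * s = (p : ZMod n) * t).card := by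
    by_contra hnd
    exact hnF (by rw [hF, Finset.mem_filter]; exact ⟨Finset.mem_univ _, hnd⟩)
  have hpos : 0 < (T.filter fun s => (p : ZMod n) * s = (p : ZMod n) * t).card :=
    Finset.card_pos.2 ⟨t, Finset.mem_filter.2 ⟨ht, rfl⟩⟩
  have hle : p ≤ (T.filter fun s => (p : ZMod n) * s = (p : ZMod n) * t).card :=
    Nat.le_of_dvd hpos hdvd
  have hsub2 : (T.filter fun s => (p : ZMod n) * s = (p : ZMod n) * t) ⊆
      (Finset.univ.filter fun z : ZMod n => (p : ZMod n) * z = (p : ZMod n) * t) :=
    Finset.filter_subset_filter _ (Finset.subset_univ _)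
  have heq := Finset.eq_of_subset_of_card_le hsub2 (by rw [card_fibre hp hpn t]; exact hle)
  have hk' : (p : ZMod n) * k = 0 := (Finset.mem_filter.1 hk).2
  have hmem : t + k ∈ (Finset.univ.filter fun z : ZMod n => (p : ZMod n) * z = (p : ZMod n) * t) := by
    rw [Finset.mem_filter]
    exact ⟨Finset.mem_univ _, by rw [mul_add, hk', add_zero]⟩
  rw [← heq] at hmem
  exact (Finset.mem_filter.1 hmem).1

/-- Every nonempty invariant set without `0` meets `PP \ {0}`.

Proof.  Otherwise all `t ∈ V` have `p t ≠ 0`, so `V` is a union of cosets of `PP` (`coset_mem`); `PP`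
contains an element `k ≠ 0` (`card_PP`), a period of `V`; `GS.period` (`V ≠ univ` because `0 ∉ V`). -/
theorem meets_PP {G : Subgroup (Perm (ZMod n))} (hG : Prim G) {V : Finset (ZMod n)} (h : GS G V)
    {p : ℕ} (hp : p.Prime) (hpn : p ∣ n) (hne : V.Nonempty) (h0 : (0 : ZMod n) ∉ V) :
    ∃ t ∈ V, t ∈ PP n p := by
  by_contra hcon
  push Not at hcon
  have hall : ∀ t ∈ V, (p : ZMod n) * t ≠ 0 := by
    intro t ht h1
    exact hcon t ht (Finset.mem_filter.2 ⟨Finset.mem_univ _, h1⟩)
  obtain ⟨k, hk, hk0⟩ : ∃ k ∈ PP n p, k ≠ 0 := by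
    apply Finset.exists_mem_ne
    rw [card_PP hp hpn]
    exact hp.one_lt
  have hne' : V ≠ Finset.univ := by
    intro h1
    exact h0 (by rw [h1]; exact Finset.mem_univ _)
  exact hk0 (GS.period hG h hne hne' fun t ht => coset_mem hG h hp hpn ht (hall t ht) hk)

/-- Every nonempty invariant set without `0` has an element outside `PP`, if `n ≠ p`.

Proof.  Otherwise `V` is contained in the subgroup `PP`, which is proper (`card_PP`, `ZMod.card`), so
`V ⊆ {0}` by `GS.gen`. -/
theorem meets_compl {G : Subgroup (Perm (ZMod n))} (hG : Prim G) {V : Finset (ZMod n)}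
    (h : GS G V) {p : ℕ} (hp : p.Prime) (hpn : p ∣ n) (hnp : n ≠ p) (hne : V.Nonempty)
    (h0 : (0 : ZMod n) ∉ V) : ∃ t ∈ V, t ∉ PP n p := by
  by_contra hcon
  push Not at hcon
  have hK : (AddMonoidHom.mulLeft (p : ZMod n)).ker ≠ ⊤ := by
    intro htop
    have h1 : PP n p = Finset.univ := by
      rw [Finset.eq_univ_iff_forall]
      intro z
      have h2 : z ∈ (AddMonoidHom.mulLeft (p : ZMod n)).ker := by
        rw [htop]; exact AddSubgroup.mem_top _
      exact Finset.mem_filter.2 ⟨Finset.mem_univ _, h2⟩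
    have h2 := card_PP hp hpn
    rw [h1, Finset.card_univ, ZMod.card] at h2
    exact hnp h2
  obtain ⟨t, ht⟩ := hne
  have h1 := GS.gen hG h hK (fun s hs => (Finset.mem_filter.1 (hcon s hs)).2) t ht
  exact h0 (h1 ▸ ht)

/-- For a proper nonempty subset `A` of `PP` and `d ∈ PP`, `d ≠ 0`: the number of the `t ∈ A` with
`d + t ∈ A` is at most `card A - 1` and at least `2 card A - p`.

Proof.  Upper bound: otherwise `d + A ⊆ A`; `d` generates `PP` (order `p`), so `A` would contain a
coset of `PP`, `A = PP`.  Lower bound: `A` and `-d + A` are subsets of `PP`, inclusion and exclusion. -/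
theorem corr_PP {p : ℕ} (hp : p.Prime) (hpn : p ∣ n) {A : Finset (ZMod n)} (hA : A ⊆ PP n p)
    (hne : A.Nonempty) (hne' : A ≠ PP n p) {d : ZMod n} (hd : d ∈ PP n p) (hd0 : d ≠ 0) :
    (A.filter fun t => d + t ∈ A).card + 1 ≤ A.card ∧
      2 * A.card ≤ (A.filter fun t => d + t ∈ A).card + p := by
  have hd' : (p : ZMod n) * d = 0 := (Finset.mem_filter.1 hd).2
  have hmemPP : ∀ z : ZMod n, z ∈ PP n p ↔ (p : ZMod n) * z = 0 := fun z =>
    ⟨fun h => (Finset.mem_filter.1 h).2, fun h => Finset.mem_filter.2 ⟨Finset.mem_univ _, h⟩⟩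
  constructor
  · have hss : (A.filter fun t => d + t ∈ A) ⊂ A := by
      refine Finset.ssubset_iff_subset_ne.2 ⟨Finset.filter_subset _ _, fun heq => hne' ?_⟩
      have hcl : ∀ t ∈ A, d + t ∈ A := by
        intro t ht
        rw [← heq] at ht
        exact (Finset.mem_filter.1 ht).2
      have hcl2 : ∀ j : ℕ, ∀ t ∈ A, j • d + t ∈ A := by
        intro j
        induction j with
        | zero => intro t ht; simpa using ht
        | succ j ih =>
          intro t ht
          have h1 := hcl _ (ih t ht)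
          have h2 : (j + 1) • d + t = d + (j • d + t) := by rw [succ_nsmul]; ring
          rw [h2]; exact h1
      have hord : addOrderOf d = p := by
        haveI := Fact.mk hp
        exact addOrderOf_eq_prime (by rw [nsmul_eq_mul]; exact hd') hd0
      have himg : (Finset.range p).image (fun j : ℕ => j • d) = PP n p := by
        apply Finset.eq_of_subset_of_card_le
        · intro z hz
          obtain ⟨j, -, rfl⟩ := Finset.mem_image.1 hz
          rw [hmemPP, mul_smul_comm, hd', smul_zero]
        · rw [card_PP hp hpn, Finset.card_image_of_injOn, Finset.card_range]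
          intro i hi j hj hij
          rw [Finset.mem_coe, Finset.mem_range] at hi hj
          exact nsmul_injOn_Iio_addOrderOf (by rw [Set.mem_Iio, hord]; exact hi)
            (by rw [Set.mem_Iio, hord]; exact hj) hij
      obtain ⟨a0, ha0⟩ := hne
      apply Finset.Subset.antisymm hA
      intro z hz
      have h1 : z - a0 ∈ PP n p := by
        rw [hmemPP, mul_sub, (hmemPP z).1 hz, (hmemPP a0).1 (hA ha0), sub_zero]
      rw [← himg] at h1
      obtain ⟨j, -, hj⟩ := Finset.mem_image.1 h1
      have h2 := hcl2 j a0 ha0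
      have h3 : j • d + a0 = z := by
        have : j • d = z - a0 := hj
        rw [this]; ring
      rwa [h3] at h2
    exact Finset.card_lt_card hss
  · set A' : Finset (ZMod n) := A.image (fun t => t - d) with hA'
    have hcard : A'.card = A.card :=
      Finset.card_image_of_injective _ sub_left_injective
    have hint : (A.filter fun t => d + t ∈ A) = A ∩ A' := by
      ext t
      rw [Finset.mem_filter, Finset.mem_inter, hA', Finset.mem_image]
      constructor
      · rintro ⟨h1, h2⟩
        exact ⟨h1, d + t, h2, by ring⟩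
      · rintro ⟨h1, s, hs, hst⟩
        refine ⟨h1, ?_⟩
        rw [← hst]
        have : d + (s - d) = s := by ring
        rwa [this]
    have hun : A ∪ A' ⊆ PP n p := by
      apply Finset.union_subset hA
      intro z hz
      obtain ⟨s, hs, rfl⟩ := Finset.mem_image.1 hz
      rw [hmemPP, mul_sub, (hmemPP s).1 (hA hs), hd', sub_zero]
    have h1 := Finset.card_le_card hun
    rw [card_PP hp hpn] at h1
    have h2 := Finset.card_union_add_card_inter A A'
    rw [hint]
    omega

/-- The sum of the numbers over `d ≠ 0`: the pairs of different elements of `A`, grouped by their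
difference. -/
theorem sum_corr {A D : Finset (ZMod n)} (hD : ∀ s ∈ A, ∀ t ∈ A, s ≠ t → s - t ∈ D)
    (h0 : (0 : ZMod n) ∉ D) :
    ∑ d ∈ D, (A.filter fun t => d + t ∈ A).card = A.card * (A.card - 1) := by
  have h1 : ∀ t ∈ A, (D.filter fun d => d + t ∈ A).card = A.card - 1 := by
    intro t ht
    rw [← Finset.card_erase_of_mem ht,
      ← Finset.card_image_of_injective (D.filter fun d => d + t ∈ A) (add_left_injective t)]
    congr 1
    ext s
    rw [Finset.mem_image, Finset.mem_erase]
    constructor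
    · rintro ⟨d, hd, rfl⟩
      rw [Finset.mem_filter] at hd
      refine ⟨fun h => h0 ?_, hd.2⟩
      have : d = 0 := by simpa using h
      rw [← this]; exact hd.1
    · rintro ⟨hst, hs⟩
      refine ⟨s - t, Finset.mem_filter.2 ⟨hD s hs t ht hst, ?_⟩, by ring⟩
      rw [sub_add_cancel]; exact hs
  have h2 : ∑ d ∈ D, (A.filter fun t => d + t ∈ A).card =
      ∑ t ∈ A, (D.filter fun d => d + t ∈ A).card := by
    simp only [Finset.card_filter]
    exact Finset.sum_comm
  rw [h2, Finset.sum_congr rfl h1, Finset.sum_const, smul_eq_mul]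

/-- A set which is a union of cosets of `PP` has a cardinality divisible by `p`. -/
private theorem SchurB_dvd {p : ℕ} (hp : p.Prime) (hpn : p ∣ n) {S : Finset (ZMod n)}
    (hS : ∀ t ∈ S, ∀ k ∈ PP n p, t + k ∈ S) : p ∣ S.card := by
  rw [Finset.card_eq_sum_card_image (fun z => (p : ZMod n) * z) S]
  refine Finset.dvd_sum fun b hb => ?_
  obtain ⟨t, ht, rfl⟩ := Finset.mem_image.1 hb
  have h1 : (S.filter fun z => (p : ZMod n) * z = (p : ZMod n) * t) =
      (Finset.univ.filter fun z : ZMod n => (p : ZMod n) * z = (p : ZMod n) * t) := by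
    ext z
    simp only [Finset.mem_filter, Finset.mem_univ, true_and, and_iff_right_iff_imp]
    intro hz
    have h2 : z - t ∈ PP n p := Finset.mem_filter.2 ⟨Finset.mem_univ _, by
      rw [mul_sub, hz, sub_self]⟩
    have h3 := hS t ht _ h2
    have h4 : t + (z - t) = z := by ring
    rwa [h4] at h3
  rw [h1, card_fibre hp hpn t]

/-- Splitting of the correlation numbers.  `T = A ∪ B`, `A = T ∩ PP`, `B = T \ PP` a union of cosets of `PP`
(`coset_mem`).

Proof.  For `d ∈ PP`: `t ∈ B` gives `d + t ∈ B`; for `t ∈ A`, `d + t ∈ PP`, so `d + t ∈ T` iff `d + t ∈ A`.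
For `d ∉ PP`: the `t ∈ A` with `d + t ∈ T`: `d + t` runs through the coset `d + PP`, which is contained in
`B` or disjoint from `T`: the number is `0` or `card A`.  The `t ∈ B` with `d + t ∈ A`: `t = a - d`, the
coset `PP - d` is contained in `B` or disjoint from it: `0` or `card A`.  The `t ∈ B` with `d + t ∈ B`: this
set is a union of cosets of `PP`, so the number is divisible by `p`.  Also `p ∣ card B`. -/
theorem corr_split {G : Subgroup (Perm (ZMod n))} (hG : Prim G) {T : Finset (ZMod n)} (h : GS G T)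
    {p : ℕ} (hp : p.Prime) (hpn : p ∣ n) :
    p ∣ (T \ PP n p).card ∧
    (∀ d ∈ PP n p, (T.filter fun t => d + t ∈ T).card =
      (T \ PP n p).card + ((T ∩ PP n p).filter fun t => d + t ∈ T ∩ PP n p).card) ∧
    ∀ d, d ∉ PP n p → ∃ ε ≤ 2, (T.filter fun t => d + t ∈ T).card ≡ ε * (T ∩ PP n p).card [MOD p] := by
  have hmemPP : ∀ z : ZMod n, z ∈ PP n p ↔ (p : ZMod n) * z = 0 := fun z =>
    ⟨fun h => (Finset.mem_filter.1 h).2, fun h => Finset.mem_filter.2 ⟨Finset.mem_univ _, h⟩⟩
  have hadd : ∀ {k z : ZMod n}, k ∈ PP n p → (z + k ∈ PP n p ↔ z ∈ PP n p) := by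
    intro k z hk
    rw [hmemPP, hmemPP, mul_add, (hmemPP k).1 hk, add_zero]
  have hcos : ∀ {t : ZMod n}, t ∈ T → t ∉ PP n p → ∀ {k : ZMod n}, k ∈ PP n p → t + k ∈ T := by
    intro t ht htp k hk
    exact coset_mem hG h hp hpn ht (fun h1 => htp ((hmemPP t).2 h1)) hk
  refine ⟨?_, ?_, ?_⟩
  · refine SchurB_dvd hp hpn fun t ht k hk => ?_
    rw [Finset.mem_sdiff] at ht ⊢
    exact ⟨hcos ht.1 ht.2 hk, fun h1 => ht.2 ((hadd hk).1 h1)⟩
  · intro d hd
    have h1 : (T.filter fun t => d + t ∈ T) =
        (T \ PP n p) ∪ ((T ∩ PP n p).filter fun t => d + t ∈ T ∩ PP n p) := by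
      ext t
      simp only [Finset.mem_filter, Finset.mem_union, Finset.mem_sdiff, Finset.mem_inter]
      constructor
      · rintro ⟨ht, hdt⟩
        by_cases htp : t ∈ PP n p
        · exact Or.inr ⟨⟨ht, htp⟩, hdt, by rw [add_comm]; exact (hadd hd).2 htp⟩
        · exact Or.inl ⟨ht, htp⟩
      · rintro (⟨ht, htp⟩ | ⟨⟨ht, -⟩, hdt, -⟩)
        · exact ⟨ht, by rw [add_comm]; exact hcos ht htp hd⟩
        · exact ⟨ht, hdt⟩
    rw [h1, Finset.card_union_of_disjoint]
    rw [Finset.disjoint_left]
    intro t ht ht'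
    exact (Finset.mem_sdiff.1 ht).2 (Finset.mem_inter.1 (Finset.mem_filter.1 ht').1).2
  · intro d hd
    have hdp : (p : ZMod n) * d ≠ 0 := fun h1 => hd ((hmemPP d).2 h1)
    have hnd : -d ∉ PP n p := by
      rw [hmemPP, mul_neg, neg_eq_zero]; exact hdp
    set A := T ∩ PP n p with hA
    set B := T \ PP n p with hB
    set X1 := A.filter fun t => d + t ∈ T with hX1
    set X2 := B.filter fun t => d + t ∈ A with hX2
    set X3 := B.filter fun t => d + t ∈ B with hX3
    have hdec : (T.filter fun t => d + t ∈ T).card = X1.card + X2.card + X3.card := by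
      have e1 : (T.filter fun t => d + t ∈ T) = (X1 ∪ X2) ∪ X3 := by
        ext t
        simp only [hX1, hX2, hX3, hA, hB, Finset.mem_filter, Finset.mem_union, Finset.mem_sdiff,
          Finset.mem_inter]
        constructor
        · rintro ⟨ht, hdt⟩
          by_cases htp : t ∈ PP n p
          · exact Or.inl (Or.inl ⟨⟨ht, htp⟩, hdt⟩)
          · by_cases hdp' : d + t ∈ PP n p
            · exact Or.inl (Or.inr ⟨⟨ht, htp⟩, hdt, hdp'⟩)
            · exact Or.inr ⟨⟨ht, htp⟩, hdt, hdp'⟩
        · rintro ((⟨⟨ht, -⟩, hdt⟩ | ⟨⟨ht, -⟩, hdt, -⟩) | ⟨⟨ht, -⟩, hdt, -⟩) <;>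
            exact ⟨ht, hdt⟩
      have d1 : Disjoint X1 X2 := by
        rw [Finset.disjoint_left]
        intro t ht ht'
        exact (Finset.mem_sdiff.1 (Finset.mem_filter.1 ht').1).2
          (Finset.mem_inter.1 (Finset.mem_filter.1 ht).1).2
      have d2 : Disjoint (X1 ∪ X2) X3 := by
        rw [Finset.disjoint_left]
        intro t ht ht'
        rcases Finset.mem_union.1 ht with h1 | h1
        · exact (Finset.mem_sdiff.1 (Finset.mem_filter.1 ht').1).2
            (Finset.mem_inter.1 (Finset.mem_filter.1 h1).1).2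
        · exact (Finset.mem_sdiff.1 (Finset.mem_filter.1 ht').2).2
            (Finset.mem_inter.1 (Finset.mem_filter.1 h1).2).2
      rw [e1, Finset.card_union_of_disjoint d2, Finset.card_union_of_disjoint d1]
    have c1 : X1.card = (if d ∈ T then 1 else 0) * A.card := by
      by_cases hdT : d ∈ T
      · rw [if_pos hdT, one_mul]
        congr 1
        rw [hX1, Finset.filter_eq_self]
        intro t ht
        exact hcos hdT hd (Finset.mem_inter.1 ht).2
      · rw [if_neg hdT, zero_mul, Finset.card_eq_zero, hX1, Finset.filter_eq_empty_iff]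
        intro t ht hdt
        have htp := (Finset.mem_inter.1 ht).2
        have h1 : d + t ∉ PP n p := fun h1 => hd ((hadd htp).1 h1)
        have h2 : -t ∈ PP n p := by
          rw [hmemPP, mul_neg, (hmemPP t).1 htp, neg_zero]
        have h3 := hcos hdt h1 h2
        have h4 : d + t + -t = d := by ring
        rw [h4] at h3
        exact hdT h3
    have c2 : X2.card = (if -d ∈ T then 1 else 0) * A.card := by
      by_cases hdT : -d ∈ T
      · rw [if_pos hdT, one_mul, ← Finset.card_image_of_injective A (sub_left_injective (b := d))]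
        congr 1
        ext t
        rw [hX2, Finset.mem_filter, Finset.mem_image]
        constructor
        · rintro ⟨-, h2⟩
          exact ⟨d + t, h2, by ring⟩
        · rintro ⟨s, hs, rfl⟩
          have e1 : d + (s - d) = s := by ring
          have hsp := (Finset.mem_inter.1 hs).2
          have h3 : -d + s ∈ T := hcos hdT hnd hsp
          have h4 : -d + s ∉ PP n p := fun h1 => hnd ((hadd hsp).1 h1)
          have e2 : s - d = -d + s := by ring
          refine ⟨?_, by rw [e1]; exact hs⟩
          rw [e2, hB, Finset.mem_sdiff]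
          exact ⟨h3, h4⟩
      · rw [if_neg hdT, zero_mul, Finset.card_eq_zero, hX2, Finset.filter_eq_empty_iff]
        intro t ht hdt
        have hdtp := (Finset.mem_inter.1 hdt).2
        have htB := Finset.mem_sdiff.1 ht
        have h2 : -(d + t) ∈ PP n p := by
          rw [hmemPP, mul_neg, (hmemPP _).1 hdtp, neg_zero]
        have h3 := hcos htB.1 htB.2 h2
        have h4 : t + -(d + t) = -d := by ring
        rw [h4] at h3
        exact hdT h3
    have c3 : p ∣ X3.card := by
      refine SchurB_dvd hp hpn fun t ht k hk => ?_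
      rw [hX3, Finset.mem_filter, hB, Finset.mem_sdiff, Finset.mem_sdiff] at ht ⊢
      refine ⟨⟨hcos ht.1.1 ht.1.2 hk, fun h1 => ht.1.2 ((hadd hk).1 h1)⟩, ?_⟩
      rw [← add_assoc]
      exact ⟨hcos ht.2.1 ht.2.2 hk, fun h1 => ht.2.2 ((hadd hk).1 h1)⟩
    refine ⟨(if d ∈ T then 1 else 0) + (if -d ∈ T then 1 else 0), ?_, ?_⟩
    · split_ifs <;> norm_num
    · rw [hdec, c1, c2, add_mul]
      obtain ⟨q, hq⟩ := c3
      rw [hq]
      exact Nat.add_mul_mod_self_left _ _ _

/-- **Schur's theorem, invariant sets.**  If `n` is not prime, every nonempty invariant set without `0`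
contains all nonzero elements.

Proof.  Let `p` be a prime divisor of `n` (`n ≥ 2`), `n ≠ p`.  Suppose `T` is not the set of all nonzero
elements.  `A = T ∩ PP`, `B = T \ PP`, `a = card A`.  `meets_PP` for `T`: `a ≥ 1`.  The set of the nonzero
elements outside `T` is a nonempty invariant set (`GS.compl`, `GS.erase_zero`), `meets_PP`: `PP` contains
`0` and another element outside `T`, so `a ≤ p - 2`.  For `d ∈ PP`, `d ≠ 0`, let `lam d` be the number for
`A`; the number for `T` is `card B + lam d` (`corr_split`).  The level set of the function of `GS.corr` with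
this value, without `0`, is invariant (`GF.gs`, `GS.erase_zero`) and contains `d`, so it contains some
`d' ∉ PP` (`meets_compl`), and `lam d ≡ ε a` modulo `p` with `ε ≤ 2` (`corr_split`, `p ∣ card B`).
`corr_PP`: `lam d ≤ a - 1`, `2 a - p ≤ lam d`.  So `lam d = 0`, or `2 a > p` and `lam d = 2 a - p`
(`ε = 0`: `lam d < p` is divisible by `p`; `ε = 1`: impossible; `ε = 2`).
If `2 a > p`: `lam d ≥ 2 a - p > 0`, so `lam d = 2 a - p` for all `d`, and `sum_corr` with
`D = PP \ {0}` gives `(p - 1) (2 a - p) = a (a - 1)`, i.e. `(a - p) (a - p + 1) = 0`, contradiction to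
`a ≤ p - 2`.
If `2 a ≤ p`: if `lam d ≠ 0` then `lam d = 2 a - p ≤ 0`; so all `lam d = 0` and `sum_corr` gives
`a (a - 1) = 0`, `a = 1`.  Then the number for `T` is `card B` for all `d ∈ PP \ {0}`, and for all `d ≠ 0`:
the set of the `d ≠ 0` with another value is invariant and does not meet `PP` (`meets_PP`).  `sum_corr` for `T`
with `D` = all nonzero elements: `(n - 1) card B = (1 + card B) card B`.  `card B ≠ 0` by `meets_compl`.  So
`card T = n - 1`, and `T` consists of all nonzero elements. -/
theorem schur_set {G : Subgroup (Perm (ZMod n))} (hG : Prim G) (hn : 2 ≤ n) (hnp : ¬ n.Prime)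
    {T : Finset (ZMod n)} (h : GS G T) (hne : T.Nonempty) (h0 : (0 : ZMod n) ∉ T) :
    ∀ d : ZMod n, d ≠ 0 → d ∈ T := by
  classical
  obtain ⟨p, hp, hpn⟩ := Nat.exists_prime_and_dvd (show n ≠ 1 by omega)
  have hnpp : n ≠ p := fun h1 => hnp (h1 ▸ hp)
  have hmemPP : ∀ z : ZMod n, z ∈ PP n p ↔ (p : ZMod n) * z = 0 := fun z =>
    ⟨fun h => (Finset.mem_filter.1 h).2, fun h => Finset.mem_filter.2 ⟨Finset.mem_univ _, h⟩⟩
  by_contra hcon
  push Not at hcon
  obtain ⟨d0, hd0, hd0T⟩ := hcon
  set A := T ∩ PP n p with hA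
  set B := T \ PP n p with hB
  set a := A.card with ha
  have hAPP : A ⊆ PP n p := Finset.inter_subset_right
  have h0PP : (0 : ZMod n) ∈ PP n p := by rw [hmemPP, mul_zero]
  obtain ⟨t1, ht1, ht1p⟩ := meets_PP hG h hp hpn hne h0
  have hAne : A.Nonempty := ⟨t1, Finset.mem_inter.2 ⟨ht1, ht1p⟩⟩
  have ha1 : 1 ≤ a := Finset.card_pos.2 hAne
  -- an element of `PP` outside `T`
  obtain ⟨t2, ht2, ht2p⟩ := meets_PP hG (h.compl.erase_zero) hp hpn
    ⟨d0, Finset.mem_erase.2 ⟨hd0, Finset.mem_compl.2 hd0T⟩⟩ (Finset.notMem_erase _ _)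
  rw [Finset.mem_erase, Finset.mem_compl] at ht2
  have hap : a + 2 ≤ p := by
    have h1 : insert 0 (insert t2 A) ⊆ PP n p := by
      rw [Finset.insert_subset_iff, Finset.insert_subset_iff]
      exact ⟨h0PP, ht2p, hAPP⟩
    have h2 := Finset.card_le_card h1
    rw [card_PP hp hpn, Finset.card_insert_of_notMem, Finset.card_insert_of_notMem] at h2
    · exact h2
    · exact fun h3 => ht2.2 (Finset.mem_inter.1 h3).1
    · rw [Finset.mem_insert]
      rintro (h3 | h3)
      · exact ht2.1 h3.symm
      · exact h0 (Finset.mem_inter.1 h3).1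
  have hAne' : A ≠ PP n p := by
    intro h1
    have h2 : a = p := by rw [ha, h1, card_PP hp hpn]
    omega
  obtain ⟨hpB, hsp1, hsp2⟩ := corr_split hG h hp hpn
  set N : ZMod n → ℕ := fun d => (T.filter fun t => d + t ∈ T).card with hN
  set lam : ZMod n → ℕ := fun d => (A.filter fun t => d + t ∈ A).card with hlam
  have hNGF : GF G N := h.corr
  have hNB : ∀ d ∈ PP n p, N d = B.card + lam d := hsp1
  have key : ∀ d ∈ PP n p, d ≠ 0 → lam d = 0 ∨ lam d + p = 2 * a := by
    intro d hd hd0
    have hgs : GS G (Finset.erase (Finset.univ.filter fun z => N z = N d) 0) :=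
      (hNGF.gs (fun m => m = N d)).erase_zero
    obtain ⟨d', hd', hd'p⟩ := meets_compl hG hgs hp hpn hnpp
      ⟨d, Finset.mem_erase.2 ⟨hd0, Finset.mem_filter.2 ⟨Finset.mem_univ _, rfl⟩⟩⟩
      (Finset.notMem_erase _ _)
    rw [Finset.mem_erase, Finset.mem_filter] at hd'
    have hNd' : N d' = N d := hd'.2.2
    obtain ⟨ε, hε, hmod⟩ := hsp2 d' hd'p
    have hmod' : B.card + lam d ≡ ε * a [MOD p] := by
      rw [← hNB d hd, ← hNd']; exact hmod
    obtain ⟨q, hq⟩ := hpB
    have hmod2 : lam d ≡ ε * a [MOD p] := by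
      refine Nat.ModEq.trans ?_ hmod'
      have h1 : B.card = p * q := hq
      rw [h1, add_comm]
      exact (Nat.add_mul_mod_self_left _ _ _).symm
    obtain ⟨c1, c2⟩ := corr_PP hp hpn hAPP hAne hAne' hd hd0
    have c1' : lam d + 1 ≤ a := c1
    have c2' : 2 * a ≤ lam d + p := c2
    have hlt : lam d < p := by omega
    have hmod3 : lam d = ε * a % p := by
      have h1 : lam d % p = ε * a % p := hmod2
      rwa [Nat.mod_eq_of_lt hlt] at h1
    interval_cases ε
    · left; simpa using hmod3
    · exfalso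
      rw [one_mul, Nat.mod_eq_of_lt (by omega)] at hmod3
      omega
    · by_cases h2a : 2 * a < p
      · exfalso
        rw [Nat.mod_eq_of_lt h2a] at hmod3
        omega
      · right
        have h1 : 2 * a % p = 2 * a - p := by
          rw [Nat.mod_eq_sub_mod (by omega), Nat.mod_eq_of_lt (by omega)]
        omega
  have hsumA : ∑ d ∈ (PP n p).erase 0, lam d = a * (a - 1) := by
    refine sum_corr (A := A) (D := (PP n p).erase 0) ?_ (Finset.notMem_erase _ _)
    intro s hs t ht hst
    rw [Finset.mem_erase]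
    refine ⟨sub_ne_zero.2 hst, ?_⟩
    rw [hmemPP, mul_sub, (hmemPP s).1 (hAPP hs), (hmemPP t).1 (hAPP ht), sub_zero]
  have hcardE : ((PP n p).erase 0).card = p - 1 := by
    rw [Finset.card_erase_of_mem h0PP, card_PP hp hpn]
  by_cases h2a : p < 2 * a
  · have hall : ∀ d ∈ (PP n p).erase 0, lam d = 2 * a - p := by
      intro d hd
      rw [Finset.mem_erase] at hd
      have c2 : 2 * a ≤ lam d + p := (corr_PP hp hpn hAPP hAne hAne' hd.2 hd.1).2
      rcases key d hd.2 hd.1 with h1 | h1 <;> omega
    rw [Finset.sum_congr rfl hall, Finset.sum_const, smul_eq_mul, hcardE] at hsumA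
    obtain ⟨b, hb⟩ : ∃ b, 2 * a = p + b := ⟨2 * a - p, by omega⟩
    obtain ⟨c, hc⟩ : ∃ c, p = a + 2 + c := ⟨p - (a + 2), by omega⟩
    obtain ⟨a', ha'⟩ : ∃ a', a = a' + 1 := ⟨a - 1, by omega⟩
    have hb' : 2 * a - p = b := by omega
    have hp1 : p - 1 = a + 1 + c := by omega
    have ha1' : a - 1 = a' := by omega
    rw [hb', hp1, ha1'] at hsumA
    have hb2 : a' = 1 + c + b := by omega
    have ha2 : a = 2 + c + b := by omega
    rw [hb2, ha2] at hsumA
    nlinarith [hsumA]
  · have hall : ∀ d ∈ (PP n p).erase 0, lam d = 0 := by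
      intro d hd
      rw [Finset.mem_erase] at hd
      rcases key d hd.2 hd.1 with h1 | h1 <;> omega
    rw [Finset.sum_congr rfl hall, Finset.sum_const_zero] at hsumA
    have ha2 : a = 1 := by
      rcases Nat.mul_eq_zero.1 hsumA.symm with h1 | h1 <;> omega
    have hNall : ∀ d : ZMod n, d ≠ 0 → N d = B.card := by
      by_contra hc
      push Not at hc
      obtain ⟨d1, hd1, hd1N⟩ := hc
      have hgs : GS G (Finset.erase (Finset.univ.filter fun z => N z ≠ B.card) 0) :=
        (hNGF.gs (fun m => m ≠ B.card)).erase_zero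
      obtain ⟨t, ht, htp⟩ := meets_PP hG hgs hp hpn
        ⟨d1, Finset.mem_erase.2 ⟨hd1, Finset.mem_filter.2 ⟨Finset.mem_univ _, hd1N⟩⟩⟩
        (Finset.notMem_erase _ _)
      rw [Finset.mem_erase, Finset.mem_filter] at ht
      apply ht.2.2
      rw [hNB t htp, hall t (Finset.mem_erase.2 ⟨ht.1, htp⟩), add_zero]
    have hsumT : ∑ d ∈ (Finset.univ : Finset (ZMod n)).erase 0, N d = T.card * (T.card - 1) :=
      sum_corr (A := T) (D := (Finset.univ : Finset (ZMod n)).erase 0)
        (fun s _ t _ hst => Finset.mem_erase.2 ⟨sub_ne_zero.2 hst, Finset.mem_univ _⟩)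
        (Finset.notMem_erase _ _)
    have hcardU : ((Finset.univ : Finset (ZMod n)).erase 0).card = n - 1 := by
      rw [Finset.card_erase_of_mem (Finset.mem_univ _), Finset.card_univ, ZMod.card]
    rw [Finset.sum_congr rfl (fun d hd => hNall d (Finset.mem_erase.1 hd).1), Finset.sum_const,
      smul_eq_mul, hcardU] at hsumT
    have hTcard : T.card = 1 + B.card := by
      have h1 := Finset.card_inter_add_card_sdiff T (PP n p)
      rw [← hA, ← hB, ← ha, ha2] at h1
      exact h1.symm
    obtain ⟨t3, ht3, ht3p⟩ := meets_compl hG h hp hpn hnpp hne h0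
    have hBpos : 0 < B.card := Finset.card_pos.2 ⟨t3, Finset.mem_sdiff.2 ⟨ht3, ht3p⟩⟩
    have hTn : T.card = n - 1 := by
      rw [hTcard, Nat.add_sub_cancel_left, ← hTcard] at hsumT
      exact (Nat.eq_of_mul_eq_mul_right hBpos hsumT).symm
    have hTsub : T ⊆ (Finset.univ : Finset (ZMod n)).erase 0 := by
      intro t ht
      rw [Finset.mem_erase]
      exact ⟨fun h1 => h0 (h1 ▸ ht), Finset.mem_univ _⟩
    have hTeq := Finset.eq_of_subset_of_card_le hTsub (by rw [hcardU, hTn])
    exact hd0T (hTeq ▸ Finset.mem_erase.2 ⟨hd0, Finset.mem_univ _⟩)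

end WildJ
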