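import Pool.Agent.helper21.SC.GDefs

/-! The structure of the minimal polynomial in case II, part A: roots are whole classes. -/

namespace WildJ

open Polynomial WildRat WildS WildV WildH WildN

variable {K : Type} [Field K] [Algebra ℂ K]

/-- Consequences of the normalisation (as `Cl.facts` in WV/CDefs.lean).

Proof.  `comp_norm`; `A.e q = l = B.e (C q) * C.e q` and `ClC.eq` give `B.e (C q) = 1`. -/
theorem ClC.facts {A B C : RF} {c q : ℂ} {l : ℕ} {φ : E →ₐ[ℂ] K} (h : ClC A B C c q l φ) :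
    1 ≤ A.n ∧ 1 ≤ B.n ∧ A.n = B.n * C.n ∧ (∀ z, A.val z = B.val (C.val z)) ∧
      (∀ z, A.e z = B.e (C.val z) * C.e z) ∧ B.Q.natDegree < B.P.natDegree ∧
      (∀ z, B.val z = none → B.e z = 1) ∧ (∀ z, A.val z = none → C.e z = 1) ∧
      B.e (C.val (some q)) = 1 ∧ A.val (some q) = some c ∧
      (∀ w, w ≠ some q → A.val w = some c → Nat.Coprime l (A.e w)) := by
  have hA : 1 ≤ A.n := h.norm.one_le
  obtain ⟨hC, hB, hmul, hval, he, hBlt, hBun, -⟩ :=
    comp_norm hA h.norm.lt h.norm.unram h.comp h.lt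
  refine ⟨hA, hB, hmul, hval, he, hBlt, hBun, ?_, ?_, h.norm.val, h.norm.cop⟩
  · intro z hz
    have h2 := he z
    rw [h.norm.unram z hz] at h2
    exact Nat.eq_one_of_mul_eq_one_left h2.symm
  · have h2 := he (some q)
    rw [h.norm.ram, h.eq] at h2
    have h3 := h.norm.two
    exact (Nat.eq_of_mul_eq_mul_right (by omega : 0 < l) (by rw [one_mul]; exact h2)).symm

/-- No root of `mu` is in the class of `x = φ X`.  Proof: as `StA_ne` in WV/StA.lean (which only uses
`C.n ≥ 1`). -/
theorem StAG_ne {A B C : RF} {c q : ℂ} {l : ℕ} {φ : E →ₐ[ℂ] K} (h : ClC A B C c q l φ)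
    {ψ : E →ₐ[ℂ] K} (hφ : FinC φ) (hA : φ (elt A) = ψ (elt A)) (hC : φ (elt C) ≠ ψ (elt C))
    {w : AlgebraicClosure K} (hw : aeval w ((mu φ (ψ RatFunc.X)).map φ.toRingHom) = 0) :
    aeval w C.P ≠ algebraMap K _ (φ (elt C)) * aeval w C.Q := by
  intro hcon
  have hCn : 1 ≤ C.n := le_trans (by norm_num) h.two
  obtain ⟨hirr, hroot⟩ := StA_mu hφ (ψ RatFunc.X)
  have h1 : aeval w ((GG C).map φ.toRingHom) = 0 := by
    rw [StA_GG, hcon, sub_self]
  have hnd : ¬ mu φ (ψ RatFunc.X) ∣ GG C := by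
    rintro ⟨R, hR⟩
    have h2 : ((GG C).map φ.toRingHom).eval (ψ RatFunc.X) = 0 := by
      rw [hR, Polynomial.map_mul, eval_mul, hroot, zero_mul]
    rw [Block_GG, eval_sub, eval_mul, eval_C, eval_map_algebraMap, eval_map_algebraMap,
      (StA_self C hCn ψ).1, ← sub_mul] at h2
    rcases mul_eq_zero.1 h2 with h3 | h3
    · exact hC (sub_eq_zero.1 h3).symm
    · exact (StA_self C hCn ψ).2 h3
  obtain ⟨a, b, hab⟩ := hirr.coprime_iff_not_dvd.2 hnd
  have h3 := congrArg (fun p : E[X] => aeval w (p.map φ.toRingHom)) hab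
  simp only [Polynomial.map_add, Polynomial.map_mul, map_add, map_mul, hw, h1, mul_zero, add_zero,
    Polynomial.map_one, map_one] at h3
  exact zero_ne_one h3

/-- With `w` every element of its class is a root of `mu`.  Proof: as `StA_clique` in WV/StA.lean, with the
automorphism `τ` of `ClC.loc` instead of the swap: `τ w = w'`, and `τ x = x` because `x = φ X` is a
solution not in the class of `w` (`StAG_ne`, `Sm` is symmetric and transitive on solutions). -/
theorem StAG_clique {A B C : RF} {c q : ℂ} {l : ℕ} {φ : E →ₐ[ℂ] K} (h : ClC A B C c q l φ)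
    {ψ : E →ₐ[ℂ] K} (hφ : FinC φ) (hA : φ (elt A) = ψ (elt A)) (hC : φ (elt C) ≠ ψ (elt C))
    {w w' : AlgebraicClosure K} (hw : aeval w ((mu φ (ψ RatFunc.X)).map φ.toRingHom) = 0)
    (hww : aeval w C.P * aeval w' C.Q = aeval w' C.P * aeval w C.Q) :
    aeval w' ((mu φ (ψ RatFunc.X)).map φ.toRingHom) = 0 := by
  have hCn : 1 ≤ C.n := le_trans (by norm_num) h.two
  have hAn : 1 ≤ A.n := h.facts.1
  have hφψ : φ ≠ ψ := fun he => hC (by rw [he])
  obtain ⟨hr, hrQ⟩ := StA_root hAn hφ hφψ hA hw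
  obtain ⟨τ, h1, h3⟩ := h.loc w w' hr hww
  have hx := StA_self' C hCn φ
  have hns : ¬ Sm C w (algebraMap K (AlgebraicClosure K) (φ RatFunc.X)) := by
    intro hs
    unfold Sm at hs
    rw [hx, mul_assoc, mul_comm (aeval _ C.Q) (aeval w C.Q), ← mul_assoc] at hs
    exact StAG_ne h hφ hA hC hw (mul_right_cancel₀ (StA_Qne hx) hs)
  have hτ := h3 _ (StA_self' A hAn φ) hns
  set σ : AlgebraicClosure K →ₐ[ℂ] AlgebraicClosure K := τ.toAlgHom with hσ
  have h1' : σ w = w' := h1
  have hcomp : (σ.comp ((IsScalarTower.toAlgHom ℂ K (AlgebraicClosure K)).comp φ)) =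
      (IsScalarTower.toAlgHom ℂ K (AlgebraicClosure K)).comp φ := coord_ext hτ
  rw [StA_eval₂] at hw ⊢
  have h4 := congrArg σ hw
  have h5 : ((algebraMap K (AlgebraicClosure K)).comp φ.toRingHom) =
      (σ : AlgebraicClosure K →+* AlgebraicClosure K).comp
        ((algebraMap K (AlgebraicClosure K)).comp φ.toRingHom) := by
    ext u
    exact (DFunLike.congr_fun hcomp u).symm
  have h6 : σ (eval₂ ((algebraMap K (AlgebraicClosure K)).comp φ.toRingHom) w
      (mu φ (ψ RatFunc.X))) = eval₂ ((σ : AlgebraicClosure K →+* AlgebraicClosure K).comp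
        ((algebraMap K (AlgebraicClosure K)).comp φ.toRingHom)) (σ w) (mu φ (ψ RatFunc.X)) :=
    Polynomial.hom_eval₂ _ _ (σ : AlgebraicClosure K →+* AlgebraicClosure K) w
  rw [h6, ← h5, h1', map_zero] at h4
  exact h4

/-- As `StA_prod` in WV/StA.lean (same proof with `StAG_clique`). -/
theorem StAG_prod {A B C : RF} {c q : ℂ} {l : ℕ} {φ : E →ₐ[ℂ] K} (h : ClC A B C c q l φ)
    {ψ : E →ₐ[ℂ] K} (hφ : FinC φ) (hA : φ (elt A) = ψ (elt A)) (hC : φ (elt C) ≠ ψ (elt C)) :
    ∃ S : Finset (AlgebraicClosure K), 1 ≤ S.card ∧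
      (mu φ (ψ RatFunc.X)).map ((algebraMap K (AlgebraicClosure K)).comp φ.toRingHom) =
      ∏ ω ∈ S, (C.P.map (algebraMap ℂ _) - Polynomial.C ω * C.Q.map (algebraMap ℂ _)) := by
  classical
  have hCn : 1 ≤ C.n := le_trans (by norm_num) h.two
  have hAn : 1 ≤ A.n := h.facts.1
  have hφψ : φ ≠ ψ := fun he => hC (by rw [he])
  set L := AlgebraicClosure K with hL
  set j : E →+* L := (algebraMap K L).comp φ.toRingHom with hj
  set M : L[X] := (mu φ (ψ RatFunc.X)).map j with hM
  obtain ⟨hirr, -⟩ := StA_mu hφ (ψ RatFunc.X)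
  obtain ⟨hmon, hdeg⟩ := mu_pos φ hφ (ψ RatFunc.X)
  have hMmon : M.Monic := hmon.map j
  have hMsep : M.Separable := (hirr.separable).map
  have hMnd : M.roots.Nodup := nodup_roots hMsep
  have hMprod : ∏ w ∈ M.roots.toFinset, (X - Polynomial.C w) = M := by
    rw [Finset.prod_eq_multiset_prod, Multiset.toFinset_val, Multiset.dedup_eq_self.2 hMnd]
    exact ((IsAlgClosed.splits M).eq_prod_roots_of_monic hMmon).symm
  have hroot : ∀ w, w ∈ M.roots.toFinset ↔
      aeval w ((mu φ (ψ RatFunc.X)).map φ.toRingHom) = 0 := by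
    intro w
    rw [Multiset.mem_toFinset, mem_roots hMmon.ne_zero, IsRoot.def, hM, eval_map, StA_eval₂]
  -- the roots are not constant
  have hnc : ∀ w ∈ M.roots.toFinset, NonConst w := by
    intro w hw
    obtain ⟨h1, h2⟩ := StA_root hAn hφ hφψ hA ((hroot w).1 hw)
    intro c' hc'
    rw [hc', aeval_algebraMap_apply, aeval_algebraMap_apply] at h1
    rw [hc', aeval_algebraMap_apply] at h2
    have h3 : algebraMap K L (φ (elt A)) = algebraMap ℂ L (aeval c' A.P / aeval c' A.Q) := by
      rw [map_div₀, h1, mul_div_cancel_right₀ _ h2]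
    rw [IsScalarTower.algebraMap_apply ℂ K L] at h3
    have h4 := (algebraMap K L).injective h3
    rw [← φ.commutes] at h4
    exact elt_nonConst A hAn _ (coord_inj φ h4)
  have hQw : ∀ w ∈ M.roots.toFinset, aeval w C.Q ≠ 0 := fun w hw =>
    (hnc w hw).aeval_ne_zero (C.Q_ne_zero hCn)
  let val : L → L := fun w => aeval w C.P / aeval w C.Q
  have hF : ∀ w ∈ M.roots.toFinset,
      C.P.map (algebraMap ℂ L) - Polynomial.C (val w) * C.Q.map (algebraMap ℂ L) =
        ∏ z ∈ M.roots.toFinset.filter (fun z => val z = val w), (X - Polynomial.C z) := by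
    intro w hw
    set F : L[X] := C.P.map (algebraMap ℂ L) - Polynomial.C (val w) * C.Q.map (algebraMap ℂ L)
      with hFdef
    obtain ⟨ζ, hζ⟩ := exists_subst (hnc w hw)
    have hFmap : F = (GG C).map ζ.toRingHom := by
      rw [Block_GG, coord_elt, hζ]
      rfl
    have hFsep : F.Separable := by
      rw [hFmap]
      exact (GG_separable C hCn).map
    have hFmon : F.Monic := by
      rw [hFdef]
      refine (h.monic.map _).sub_of_left (degree_lt_degree ?_)
      refine lt_of_le_of_lt (natDegree_C_mul_le _ _) ?_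
      rw [natDegree_map, natDegree_map]
      exact h.lt
    have hFroot : F.roots.toFinset = M.roots.toFinset.filter (fun z => val z = val w) := by
      ext z
      rw [Multiset.mem_toFinset, mem_roots hFmon.ne_zero, IsRoot.def, hFdef, eval_sub, eval_mul,
        eval_C, eval_map_algebraMap, eval_map_algebraMap, Finset.mem_filter, sub_eq_zero]
      constructor
      · intro hz
        have hzQ : aeval z C.Q ≠ 0 := StA_Qne hz
        have hww : aeval w C.P * aeval z C.Q = aeval z C.P * aeval w C.Q := by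
          rw [hz]
          show _ = aeval w C.P / aeval w C.Q * aeval z C.Q * aeval w C.Q
          rw [div_mul_eq_mul_div, div_mul_cancel₀ _ (hQw w hw)]
        refine ⟨(hroot z).2 (StAG_clique h hφ hA hC ((hroot w).1 hw) hww), ?_⟩
        show aeval z C.P / aeval z C.Q = val w
        rw [hz, mul_div_cancel_right₀ _ hzQ]
      · rintro ⟨hz, he⟩
        rw [← he]
        show _ = aeval z C.P / aeval z C.Q * aeval z C.Q
        rw [div_mul_cancel₀ _ (hQw z hz)]
    rw [← hFroot, Finset.prod_eq_multiset_prod, Multiset.toFinset_val,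
      Multiset.dedup_eq_self.2 (nodup_roots hFsep)]
    exact (IsAlgClosed.splits F).eq_prod_roots_of_monic hFmon
  refine ⟨M.roots.toFinset.image val, ?_, ?_⟩
  · rw [Nat.succ_le_iff, Finset.card_pos, Finset.image_nonempty]
    obtain ⟨w, hw⟩ := IsAlgClosed.exists_root M (by
      intro h0
      rw [hM, degree_map] at h0
      exact (natDegree_pos_iff_degree_pos.1 hdeg).ne' h0)
    exact ⟨w, by rw [Multiset.mem_toFinset, mem_roots hMmon.ne_zero]; exact hw⟩
  · refine hMprod.symm.trans ?_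
    rw [← Finset.prod_fiberwise_of_maps_to (g := val)
      (fun w hw => Finset.mem_image_of_mem _ hw)]
    refine Finset.prod_congr rfl fun ω hω => ?_
    obtain ⟨w, hw, rfl⟩ := Finset.mem_image.1 hω
    exact (hF w hw).symm

/-- As `StA_eval` in WV/StA.lean (same proof with `StAG_prod`). -/
theorem StAG_eval {A B C : RF} {c q : ℂ} {l : ℕ} {φ : E →ₐ[ℂ] K} (h : ClC A B C c q l φ)
    {ψ : E →ₐ[ℂ] K} (hφ : FinC φ) (hA : φ (elt A) = ψ (elt A)) (hC : φ (elt C) ≠ ψ (elt C)) :
    ∃ d' : ℕ, 1 ≤ d' ∧ (mu φ (ψ RatFunc.X)).natDegree = C.n * d' ∧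
      ∀ b b0 p' : ℂ, C.P.eval b = p' * C.Q.eval b → C.P.eval b0 = p' * C.Q.eval b0 →
        (mu φ (ψ RatFunc.X)).eval (algebraMap ℂ E b) * algebraMap ℂ E (C.Q.eval b0 ^ d') =
        (mu φ (ψ RatFunc.X)).eval (algebraMap ℂ E b0) * algebraMap ℂ E (C.Q.eval b ^ d') := by
  obtain ⟨S, hS, hprod⟩ := StAG_prod h hφ hA hC
  set j : E →+* (AlgebraicClosure K) := (algebraMap K (AlgebraicClosure K)).comp φ.toRingHom with hj
  have hCdeg : C.n = C.P.natDegree := max_eq_left h.lt.le
  have hFmon : ∀ ω : AlgebraicClosure K,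
      (C.P.map (algebraMap ℂ (AlgebraicClosure K)) - Polynomial.C ω * C.Q.map (algebraMap ℂ (AlgebraicClosure K))).Monic ∧
      (C.P.map (algebraMap ℂ (AlgebraicClosure K)) - Polynomial.C ω * C.Q.map (algebraMap ℂ (AlgebraicClosure K))).natDegree = C.n := by
    intro ω
    have hlt : (Polynomial.C ω * C.Q.map (algebraMap ℂ (AlgebraicClosure K))).degree <
        (C.P.map (algebraMap ℂ (AlgebraicClosure K))).degree := by
      refine degree_lt_degree (lt_of_le_of_lt (natDegree_C_mul_le _ _) ?_)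
      rw [natDegree_map, natDegree_map]
      exact h.lt
    refine ⟨(h.monic.map _).sub_of_left hlt, ?_⟩
    rw [natDegree_sub_eq_left_of_natDegree_lt, natDegree_map, hCdeg]
    rw [natDegree_map]
    refine lt_of_le_of_lt (natDegree_C_mul_le _ _) ?_
    rw [natDegree_map]
    exact h.lt
  refine ⟨S.card, hS, ?_, ?_⟩
  · have h1 : ((mu φ (ψ RatFunc.X)).map j).natDegree = (mu φ (ψ RatFunc.X)).natDegree :=
      natDegree_map j
    rw [← h1, hprod, natDegree_prod_of_monic _ _ fun ω _ => (hFmon ω).1,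
      Finset.sum_congr rfl fun ω _ => (hFmon ω).2, Finset.sum_const, smul_eq_mul, mul_comm]
  · intro b b0 p' hb hb0
    have key : ∀ b : ℂ, C.P.eval b = p' * C.Q.eval b →
        j ((mu φ (ψ RatFunc.X)).eval (algebraMap ℂ E b)) =
          algebraMap ℂ (AlgebraicClosure K) (C.Q.eval b) ^ S.card * ∏ ω ∈ S, (algebraMap ℂ (AlgebraicClosure K) p' - ω) := by
      intro b hb
      have hjb : j (algebraMap ℂ E b) = algebraMap ℂ (AlgebraicClosure K) b := by
        show algebraMap K (AlgebraicClosure K) (φ (algebraMap ℂ E b)) = _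
        rw [φ.commutes, ← IsScalarTower.algebraMap_apply]
      have h1 := congrArg (Polynomial.eval (algebraMap ℂ (AlgebraicClosure K) b)) hprod
      rw [← hjb, eval_map_apply, hjb, eval_prod] at h1
      rw [h1, ← Finset.prod_const, ← Finset.prod_mul_distrib]
      refine Finset.prod_congr rfl fun ω _ => ?_
      rw [eval_sub, eval_mul, eval_C, eval_map_algebraMap, eval_map_algebraMap,
        aeval_algebraMap_apply_eq_algebraMap_eval, aeval_algebraMap_apply_eq_algebraMap_eval, hb,
        map_mul]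
      ring
    have hinj : Function.Injective j := j.injective
    apply hinj
    have hjc : ∀ x : ℂ, j (algebraMap ℂ E x) = algebraMap ℂ (AlgebraicClosure K) x := by
      intro x
      show algebraMap K (AlgebraicClosure K) (φ (algebraMap ℂ E x)) = _
      rw [φ.commutes, ← IsScalarTower.algebraMap_apply]
    rw [map_mul, map_mul, key b hb, key b0 hb0, hjc, hjc, map_pow, map_pow]
    ring

end WildJ
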